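import Pool.Agent.helper40.SN.dPTT

open scoped Pointwise ContDiff
open MeasureTheory Set Filter Topology Pool.Agent.helper83.SC Pool.Agent.helper69.SN

namespace Pool.Agent.helper40.SN

theorem dEND (hCNT : Pool.Agent.helper28.SN.cCNT_stmt) (hDER : aDER_stmt) (hHP : hess_psd_stmt)
    (hCLO : aCLO_stmt) (hCLS : bCLS_stmt) (hLIP : dLIP_stmt) (hGEO : dGEO_stmt)
    (hBND : dBND_stmt) (hWQ : dWQ_stmt) (hXQ : dXQ_stmt)
    (hXA : dXA_stmt) (hCOM : dCOM_stmt) (hCMP : dCMP_stmt) (hMNO : dMNO_stmt) : dEND_stmt := by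
  classical
  intro m n S D h r hm hr hcv hCap hSm
  obtain ⟨ρ, c, ρ', γ, L, hρ, h21, hc, hc1, hρ', hγ, hL, H⟩ :=
    main_ineq hGEO hBND hWQ hXQ hXA hCOM hCMP hMNO S ∅ D h r (Finset.empty_subset _)
      (by simpa using hm) hr hcv hCap (fun j hj => hSm j (by simpa using hj))
  set s : ℝ := min (min ρ' ρ) (c * ρ / (16 * L)) with hsdef
  have hs0 : 0 < s := lt_min (lt_min hρ' hρ) (by positivity)
  have hsρ' : s ≤ ρ' := (min_le_left _ _).trans (min_le_left _ _)
  have hsρ : s ≤ ρ := (min_le_left _ _).trans (min_le_right _ _)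
  have hsL : s ≤ c * ρ / (16 * L) := min_le_right _ _
  set vol : ℝ := (volume (Metric.ball (0 : E m) s)).toReal with hvol
  have hvol0 : 0 < vol := by
    rw [hvol, ENNReal.toReal_pos_iff]
    exact ⟨Metric.measure_ball_pos _ _ hs0, measure_ball_lt_top⟩
  have hβ : 0 < γ ^ m * vol := by positivity
  obtain ⟨K, H₀⟩ := H (γ ^ m * vol / (2 * (n + 1))) (by positivity)
  obtain ⟨hK2, δ₁, δ, η, R, hδ₁, hδ, hη, hη1, hR1, H₁⟩ := H₀ K le_rfl
  refine ⟨δ, η, R, hδ, hη, fun a ha => ?_⟩
  by_contra hlt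
  rw [not_le] at hlt
  obtain ⟨v, X₀, hv1, hv2, hv3, hGb, hXb, hXw, hCl, Hε⟩ := H₁ a ha
  -- convexity
  have hcut : ∀ t, 0 ≤ cut δ₁ t := fun t => le_min zero_le_one (le_max_left _ _)
  have hX₀ : CV X₀ := by
    have h1 := (hCLS (fun y => hs a (wt (∅ : Finset (Fin n)) K (S \ ∅)
      (cut δ₁ (wf S D r a y))) y) ?_).2.1 _ hCl
    · simpa using h1.1
    · intro x i
      unfold hs
      refine Matrix.PosSemidef.smul (hHP (ha.1 i).1 (ha.1 i).2 x) ?_
      unfold wt
      split_ifs with h1 h2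
      · linarith
      · exact hcut _
      · exact le_rfl
  have hG : CV (Gf S ∅ D a) := by
    have h1 : CV (Qf D) := (hGEO D).1.2
    have h2 : ∀ J : Finset (Fin n), CV (fun x => ∑ j ∈ J, a j x) := by
      intro J
      induction J using Finset.induction_on with
      | empty =>
        simp only [Finset.sum_empty]
        exact convexOn_const (0 : ℝ) convex_univ
      | insert j J hj ih =>
        have h3 : (fun x => ∑ i ∈ insert j J, a i x) = fun x => a j x + ∑ i ∈ J, a i x := by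
          funext x
          rw [Finset.sum_insert hj]
        rw [h3]
        exact (ha.1 j).2.add ih
    exact h1.add (h2 _)
  have hXL := hLIP X₀ hX₀ ρ ρ L hρ (fun x hx => hXb x (by linarith))
  have hGL := hLIP _ hG ρ ρ L hρ (fun x hx => hGb x (by linarith))
  have hLs : 2 * L / ρ * s ≤ c / 8 := by
    have h1 : 2 * L / ρ * s ≤ 2 * L / ρ * (c * ρ / (16 * L)) :=
      mul_le_mul_of_nonneg_left hsL (by positivity)
    have h2 : 2 * L / ρ * (c * ρ / (16 * L)) = c / 8 := by
      field_simp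
      norm_num
    linarith
  obtain ⟨X, hXc, hXe, HX⟩ := Hε (min (c / 8) (γ ^ m * vol / 4)) (lt_min (by linarith) (by linarith))
    (min_le_left _ _)
  have hwt : ∀ x, hs a (wt (∅ : Finset (Fin n)) K ∅ 0) x = hs a (wt (∅ : Finset (Fin n)) 1 ∅ 0) x := by
    intro x
    funext i
    simp [hs, wt]
  have hpsd : ∀ x, Psd (hs a (wt (∅ : Finset (Fin n)) 1 ∅ 0) x) := by
    intro x i
    unfold hs
    refine Matrix.PosSemidef.smul (hHP (ha.1 i).1 (ha.1 i).2 x) ?_
    simp [wt]
  have hVc : InCl ∅ K a v := by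
    refine ⟨hv1, fun x _ => ?_⟩
    rw [hwt]
    have h1 := (hCLO _ (hpsd x)).2.1 _ (γ • (1 : Mat m)) (hv2 x)
      (Matrix.PosSemidef.one.smul hγ.le)
    rwa [sub_add_cancel] at h1
  have hms := HX v (Metric.ball 0 s) hVc (fun x _ => le_rfl) measurableSet_ball ?_ ?_
  · have hlow : γ ^ m * vol ≤ ms ∅ K a (Metric.ball (0 : E m) s) v := by
      have h1 : ∀ x ∈ Metric.ball (0 : E m) s,
          γ ^ m ≤ Ph (hs a (wt (∅ : Finset (Fin n)) K ∅ 0) x) (hess v x) := by
        intro x _
        rw [hwt]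
        have h2 := (hv2 x).2 γ hγ.le
        rwa [sub_add_cancel] at h2
      unfold ms
      have h3 : ∫ x in Metric.ball (0 : E m) s, γ ^ m = γ ^ m * vol := by
        rw [setIntegral_const, smul_eq_mul, mul_comm]
        rfl
      rw [← h3]
      refine setIntegral_mono_on ?_ ?_ measurableSet_ball h1
      · exact (integrableOn_const (by exact measure_ball_lt_top.ne) (by simp))
      · exact int_Ph hCNT hDER ∅ K a v ha.1 hv1
          (fun x hx => by
            rw [mem_closedBall_zero_iff]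
            have := mem_ball_zero_iff.1 hx
            linarith)
    have h4 : 1 / 2 * ((n : ℝ) * (γ ^ m * vol / (2 * (n + 1)) * K ^ (∅ : Finset (Fin n)).card)) ≤
        γ ^ m * vol / 4 := by
      rw [Finset.card_empty, pow_zero, mul_one]
      have h5 : (n : ℝ) * (γ ^ m * vol / (2 * (n + 1))) = (n / (n + 1)) * (γ ^ m * vol / 2) := by
        field_simp
      have h6 : (n : ℝ) / (n + 1) ≤ 1 := by
        rw [div_le_one (by positivity)]
        linarith
      rw [h5]
      nlinarith
    have h7 := min_le_right (c / 8) (γ ^ m * vol / 4)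
    linarith
  · intro x hx
    rw [mem_ball_zero_iff] at hx ⊢
    linarith
  · intro x hx
    rw [mem_ball_zero_iff] at hx
    have h0 := hXw 0 hlt
    have h1 := abs_le.1 (hXL x 0 (hx.le.trans hsρ) (by simpa using hρ.le))
    have h2 := abs_le.1 (hGL x 0 (hx.le.trans hsρ) (by simpa using hρ.le))
    have h3 : 2 * L / ρ * ‖x - 0‖ ≤ c / 8 := by
      rw [sub_zero]
      exact (mul_le_mul_of_nonneg_left hx.le (by positivity)).trans hLs
    have h4 := abs_le.1 (hXe x (by linarith))
    have h5 := hv3 x (hx.le.trans hsρ')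
    have h6 := min_le_left (c / 8) (γ ^ m * vol / 4)
    linarith

end Pool.Agent.helper40.SN
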