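import Pool.Agent.helper40.SN.Main

open scoped Pointwise ContDiff
open MeasureTheory Set Filter Topology Pool.Agent.helper83.SC Pool.Agent.helper69.SN

namespace Pool.Agent.helper40.SN

/-- Integrability. -/
theorem int_Ph (hCNT : Pool.Agent.helper28.SN.cCNT_stmt) (hDER : aDER_stmt) {m n : ℕ}
    (T : Finset (Fin n)) (K : ℝ) (a : Fin n → E m → ℝ) (Y : E m → ℝ) (ha : ∀ i, SmC (a i))
    (hY : ContDiff ℝ ∞ Y) {F : Set (E m)} (hF : F ⊆ Metric.closedBall 0 1) :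
    IntegrableOn (fun x => Ph (hs a (wt T K ∅ 0) x) (hess Y x)) F := by
  have h1 := hCNT a (wt T K ∅ 0) (fun _ => (0 : ℝ)) Y 0 (fun i => (ha i).1) contDiff_const hY
  have h2 : (fun x => Ph (hs a (wt T K ∅ 0) x) (hess Y x)) =
      fun x => dPh (hs a (wt T K ∅ 0) x) 0 (hess (fun _ : E m => (0 : ℝ)) x) (hess Y x) := by
    funext x
    exact ((hDER _ _ _ 0 0).2).symm
  rw [h2]
  exact (h1.continuousOn.integrableOn_compact (isCompact_closedBall _ _)).mono_set hF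

theorem dPTT (hCNT : Pool.Agent.helper28.SN.cCNT_stmt) (hDER : aDER_stmt) (hGEO : dGEO_stmt) (hBND : dBND_stmt) (hWQ : dWQ_stmt) (hXQ : dXQ_stmt)
    (hXA : dXA_stmt) (hCOM : dCOM_stmt) (hCMP : dCMP_stmt) (hMNO : dMNO_stmt)
    (hVAD : dVAD_stmt) : dPTT_stmt := by
  intro m n S T D h r hTS hTm hr hcv hCap hSm
  have hm : 1 ≤ m := by omega
  obtain ⟨ρ, c, ρ', γ, L, hρ, h21, hc, hc1, hρ', hγ, hL, H⟩ :=
    main_ineq hGEO hBND hWQ hXQ hXA hCOM hCMP hMNO S T D h r hTS hTm hr hcv hCap hSm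
  refine ⟨min ρ' ρ, lt_min hρ' hρ, (min_le_right _ _).trans (by linarith), fun τ hτ => ?_⟩
  have hcm : 0 < (c / 4) ^ m := by positivity
  obtain ⟨K₀, H₀⟩ := H ((c / 4) ^ m * τ / (n + 1)) (by positivity)
  refine ⟨K₀, fun K hK => ?_⟩
  obtain ⟨hK2, δ₁, δ, η, R, hδ₁, hδ, hη, hη1, hR1, H₁⟩ := H₀ K hK
  have hK0 : 0 ≤ K := by linarith
  refine ⟨δ, η, R, hδ, hη, fun a ha Y hY hY01 => ?_⟩
  obtain ⟨v, X₀, hv1, hv2, hv3, hGb, hXb, hXw, -, Hε⟩ := H₁ a ha
  obtain ⟨hVc, hVm⟩ := hVAD T K (c / 4) γ a v Y hK2 (by linarith) (by linarith) hγ.le ha.1 hv1 hv2 hY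
  have hmeas := meas_small hWQ S D r a hm ha.1 (min ρ' ρ) δ
  have hF1 : {x | ‖x‖ ≤ min ρ' ρ ∧ wf S D r a x < δ} ⊆ Metric.closedBall (0 : E m) 1 := by
    intro x hx
    rw [mem_closedBall_zero_iff]
    exact hx.1.trans ((min_le_right _ _).trans (by linarith))
  have hle : (c / 4) ^ m * ms T K a {x | ‖x‖ ≤ min ρ' ρ ∧ wf S D r a x < δ} Y ≤
      ms T K a {x | ‖x‖ ≤ min ρ' ρ ∧ wf S D r a x < δ} (fun x => v x + c / 4 * (Y x - 1)) := by
    unfold ms
    rw [← integral_const_mul]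
    refine setIntegral_mono_on ?_ ?_ hmeas ?_
    · exact (int_Ph hCNT hDER T K a Y ha.1 hY.1 hF1).const_mul _
    · exact int_Ph hCNT hDER T K a _ ha.1 hVc.1 hF1
    · intro x hx
      have := hF1 hx
      rw [mem_closedBall_zero_iff] at this
      exact hVm x this
  have key : ∀ ε : ℝ, 0 < ε → ε ≤ c / 8 →
      (c / 4) ^ m * ms T K a {x | ‖x‖ ≤ min ρ' ρ ∧ wf S D r a x < δ} Y ≤
        ε + 1 / 2 * (n * ((c / 4) ^ m * τ / (n + 1) * K ^ T.card)) := by
    intro ε hε hε8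
    obtain ⟨X, hXc, hXe, HX⟩ := Hε ε hε hε8
    refine hle.trans (HX _ _ hVc ?_ hmeas ?_ ?_)
    · intro x hx
      have h1 := (hY01 x (hx.trans h21)).2
      nlinarith
    · intro x hx
      rw [mem_ball_zero_iff]
      have h1 := hx.1
      have h2 := min_le_right ρ' ρ
      linarith
    · intro x hx
      have h1 : ‖x‖ ≤ ρ' := hx.1.trans (min_le_left _ _)
      have h2 : ‖x‖ ≤ 1 := hx.1.trans ((min_le_right _ _).trans (by linarith))
      have h3 := hXw x hx.2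
      have h4 := abs_le.1 (hXe x h2)
      have h5 := hv3 x h1
      have h6 := (hY01 x h2).1
      nlinarith
  have h1 : (c / 4) ^ m * ms T K a {x | ‖x‖ ≤ min ρ' ρ ∧ wf S D r a x < δ} Y ≤
        1 / 2 * (n * ((c / 4) ^ m * τ / (n + 1) * K ^ T.card)) := by
    refine le_of_forall_pos_le_add fun ε hε => ?_
    have h2 := key (min ε (c / 8)) (lt_min hε (by linarith)) (min_le_right _ _)
    have h3 := min_le_left ε (c / 8)
    linarith
  have h2 : 1 / 2 * ((n : ℝ) * ((c / 4) ^ m * τ / (n + 1) * K ^ T.card)) ≤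
      (c / 4) ^ m * (τ * K ^ T.card) := by
    have h3 : (n : ℝ) * ((c / 4) ^ m * τ / (n + 1) * K ^ T.card) =
        (n / (n + 1)) * ((c / 4) ^ m * (τ * K ^ T.card)) := by
      field_simp
    have h4 : (n : ℝ) / (n + 1) ≤ 1 := by
      rw [div_le_one (by positivity)]
      linarith
    have h5 : 0 ≤ (c / 4) ^ m * (τ * K ^ T.card) := by positivity
    rw [h3]
    nlinarith
  exact le_of_mul_le_mul_left (h1.trans h2) hcm

end Pool.Agent.helper40.SN
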