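import Pool.Agent.helper40.SN.WireSC
import Pool.Agent.helper1.SN.MOC
import Pool.Agent.helper1.SN.SML
import Pool.Agent.helper1.SN.dGEO
import Pool.Agent.helper11.SN.cMCP
import Pool.Agent.helper11.SN.dJEN
import Pool.Agent.helper13.SC.FS
import Pool.Agent.helper13.SN.cMCF
import Pool.Agent.helper13.SN.cRAD
import Pool.Agent.helper13.SN.dNCV
import Pool.Agent.helper14.SN.aPER
import Pool.Agent.helper18.SN.dLIP
import Pool.Agent.helper19.SN.APC
import Pool.Agent.helper20.SN.NXT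
import Pool.Agent.helper21.SN.MMOB
import Pool.Agent.helper21.SN.dMNO
import Pool.Agent.helper28.SN.CCMP
import Pool.Agent.helper28.SN.DZER
import Pool.Agent.helper30.SN.CNG
import Pool.Agent.helper30.SN.dSTR
import Pool.Agent.helper31.SN.bQUA
import Pool.Agent.helper33.SN.BEX
import Pool.Agent.helper33.SN.aHOM
import Pool.Agent.helper34.SN.xMAS
import Pool.Agent.helper39.SN.ZER
import Pool.Agent.helper39.SN.cPRJ
import Pool.Agent.helper40.SN.dEND
import Pool.Agent.helper40.SN.dIND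
import Pool.Agent.helper40.SN.dPTT
import Pool.Agent.helper44.SN.SUP
import Pool.Agent.helper46.SN.cVB
import Pool.Agent.helper46.SN.dCOR
import Pool.Agent.helper48.SN.PBD
import Pool.Agent.helper49.SN.bCLS
import Pool.Agent.helper50.SN.CLO
import Pool.Agent.helper50.SN.cCNT
import Pool.Agent.helper52.SN.cREG
import Pool.Agent.helper57.SN.BSCD
import Pool.Agent.helper57.SN.dCMP
import Pool.Agent.helper59.SN.CNT
import Pool.Agent.helper59.SN.dBAS
import Pool.Agent.helper64.SN.xHES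
import Pool.Agent.helper66.SN.CL2
import Pool.Agent.helper69.SN.BAR
import Pool.Agent.helper71.SN.LGL
import Pool.Agent.helper71.SN.MXP
import Pool.Agent.helper75.SN.GLU
import Pool.Agent.helper76.SN.cCLN
import Pool.Agent.helper76.SN.dWQ
import Pool.Agent.helper77.SN.BDR
import Pool.Agent.helper77.SN.BSM
import Pool.Agent.helper77.SN.CVX
import Pool.Agent.helper77.SN.MAX
import Pool.Agent.helper77.SN.PER
import Pool.Agent.helper77.SN.SUP
import Pool.Agent.helper77.SN.cBDD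
import Pool.Agent.helper77.SN.cMDZ
import Pool.Agent.helper77.SN.dCAP
import Pool.Agent.helper77.SN.dXQ
import Pool.Agent.helper78.SN.mRAD
import Pool.Agent.helper79.SN.TRU
import Pool.Agent.helper79.SN.cIBP
import Pool.Agent.helper79.SN.cVAN
import Pool.Agent.helper79.SN.dBND
import Pool.Agent.helper81.SN.cLOC
import Pool.Agent.helper81.SN.xCMP
import Pool.Agent.helper85.SN.RMX
import Pool.Agent.helper85.SN.cMON
import Pool.Agent.helper85.SN.dCOM
import Pool.Agent.helper85.SN.dHOP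
import Pool.Agent.helper85.SN.xTCH
import Pool.Agent.helper87.SN.CNJ
import Pool.Agent.helper87.SN.dPOT
import Pool.Agent.helper89.SN.cJAC
import Pool.Agent.helper90.SN.APSD
import Pool.Agent.helper90.SN.MMOA
import Pool.Agent.helper90.SN.cPD
import Pool.Agent.helper90.SN.dXA
import Pool.Agent.helper92.SN.cLIM
import Pool.Agent.helper93.SN.aDER
import Pool.Agent.helper93.SN.cRMX
import Pool.Agent.helper96.SN.TAY
import Pool.Agent.helper97.SN.PRX
import Pool.Agent.helper97.SN.VAD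
import Pool.Agent.helper98.SN.REC
import Pool.Agent.helper99.SN.LOC
import Pool.Agent.helper99.SN.MLC
import Pool.Agent.helper99.SN.RNK

/-! Project sn (MP_d2d7b9, frozen S13995): all rows of blocks A, B, C, D without hypotheses; CORE. -/

open scoped Pointwise ContDiff
open MeasureTheory Set Filter Topology Pool.Agent.helper83.SC

namespace Pool.Agent.helper40.SN.W

theorem w_aREC : Pool.Agent.helper69.SN.aREC_stmt :=
  Pool.Agent.helper69.SN.aREC

theorem w_aDER : Pool.Agent.helper69.SN.aDER_stmt :=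
  Pool.Agent.helper69.SN.aDER_of

theorem w_aCNT : Pool.Agent.helper69.SN.aCNT_stmt :=
  Pool.Agent.helper69.SN.aCNT

theorem w_aHOM : Pool.Agent.helper69.SN.aHOM_stmt :=
  Pool.Agent.helper69.SN.aHOM

theorem w_aCNJ : Pool.Agent.helper69.SN.aCNJ_stmt :=
  Pool.Agent.helper69.SN.aCNJ

theorem w_aZER : Pool.Agent.helper69.SN.aZER_stmt :=
  Pool.Agent.helper69.SN.aZER

theorem w_aALL : Pool.Agent.helper69.SN.aALL_stmt :=
  Pool.Agent.helper69.SN.aALL

theorem w_aHYP : Pool.Agent.helper69.SN.aHYP_stmt :=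
  Pool.Agent.helper44.SN.aHYP_of

theorem w_aEQV : Pool.Agent.helper69.SN.aEQV_stmt :=
  Pool.Agent.helper44.SN.aEQV_of

theorem w_aPSD : Pool.Agent.helper69.SN.aPSD_stmt :=
  Pool.Agent.helper90.SN.aPSD

theorem w_aSUP : Pool.Agent.helper69.SN.aSUP_stmt :=
  Pool.Agent.helper44.SN.aSUP_of

theorem w_aDNN : Pool.Agent.helper69.SN.aDNN_stmt :=
  Pool.Agent.helper44.SN.aDNN_of

theorem w_aCLO : Pool.Agent.helper69.SN.aCLO_stmt :=
  Pool.Agent.helper50.SN.CLO w_aHOM w_aPSD w_aSUP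

theorem w_aCL2 : Pool.Agent.helper69.SN.aCL2_stmt :=
  Pool.Agent.helper69.SN.aCL2 w_aCNT

theorem w_aNXT : Pool.Agent.helper69.SN.aNXT_stmt :=
  Pool.Agent.helper69.SN.aNXT_of w_aREC w_aDER w_aDNN w_aCLO

theorem w_aMAX : Pool.Agent.helper69.SN.aMAX_stmt :=
  Pool.Agent.helper69.SN.aMAX_of w_aZER

theorem w_aCNG : Pool.Agent.helper69.SN.aCNG_stmt :=
  Pool.Agent.helper30.SN.aCNG w_aCNJ w_aEQV

theorem w_aSML : Pool.Agent.helper69.SN.aSML_stmt :=
  Pool.Agent.helper69.SN.aSML_of w_aHYP w_aDER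

theorem w_aPBD : Pool.Agent.helper69.SN.aPBD_stmt :=
  Pool.Agent.helper48.SN.aPBD_of w_aCNT w_aHOM w_aEQV w_aPSD w_aCL2

theorem w_aPER : Pool.Agent.helper69.SN.aPER_stmt :=
  Pool.Agent.helper69.SN.aPER_of w_aCNG w_aPBD w_aCLO

theorem w_aTRU : Pool.Agent.helper69.SN.aTRU_stmt :=
  Pool.Agent.helper79.SN.aTRU w_aCLO w_aCNG w_aPER

theorem w_aRNK : Pool.Agent.helper69.SN.aRNK_stmt :=
  Pool.Agent.helper69.SN.aRNK

theorem w_bCVX : Pool.Agent.helper69.SN.bCVX_stmt :=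
  Pool.Agent.helper69.SN.bCVX_of

theorem w_bSCD : Pool.Agent.helper69.SN.bSCD_stmt :=
  Pool.Agent.helper69.SN.bSCD_of

theorem w_bQUA : Pool.Agent.helper69.SN.bQUA_stmt :=
  Pool.Agent.helper69.SN.bQUA

theorem w_bRMX : Pool.Agent.helper69.SN.bRMX_stmt :=
  Pool.Agent.helper85.SN.bRMX

theorem w_bCLS : Pool.Agent.helper69.SN.bCLS_stmt :=
  Pool.Agent.helper69.SN.bCLS_of hess_psd_of hess_add_of w_aCLO

theorem w_bGLU : Pool.Agent.helper69.SN.bGLU_stmt :=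
  Pool.Agent.helper69.SN.bGLU_of w_bRMX w_aCLO

theorem w_bLGL : Pool.Agent.helper69.SN.bLGL_stmt :=
  Pool.Agent.helper69.SN.bLGL_of w_bCVX w_bRMX w_bCLS w_aCLO

theorem w_bSUP : Pool.Agent.helper69.SN.bSUP_stmt :=
  Pool.Agent.helper69.SN.bSUP_of w_bCLS w_bGLU

theorem w_bPER : Pool.Agent.helper69.SN.bPER_stmt :=
  Pool.Agent.helper69.SN.bPER_of w_bCLS w_bSUP

theorem w_bMXP : Pool.Agent.helper69.SN.bMXP_stmt :=
  Pool.Agent.helper69.SN.bMXP_of w_aCLO w_bSCD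

theorem w_mMOA : Pool.Agent.helper69.SN.mMOA_stmt :=
  Pool.Agent.helper90.SN.mMOA

theorem w_mMOB : Pool.Agent.helper69.SN.mMOB_stmt :=
  Pool.Agent.helper21.SN.mMOB

theorem w_mMOC : Pool.Agent.helper69.SN.mMOC_stmt :=
  Pool.Agent.helper69.SN.mMOC

theorem w_mRAD : Pool.Agent.helper69.SN.mRAD_stmt :=
  Pool.Agent.helper69.SN.mRAD

theorem w_xPRX : Pool.Agent.helper69.SN.xPRX_stmt :=
  Pool.Agent.helper69.SN.xPRX

theorem w_xLOC : Pool.Agent.helper69.SN.xLOC_stmt :=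
  Pool.Agent.helper69.SN.xLOC

theorem w_xCMP : Pool.Agent.helper69.SN.xCMP_stmt :=
  Pool.Agent.helper81.SN.xCMP w_xPRX w_xLOC

theorem w_xHES : Pool.Agent.helper69.SN.xHES_stmt :=
  Pool.Agent.helper69.SN.xHES_of

theorem w_xAPC : Pool.Agent.helper69.SN.xAPC_stmt :=
  Pool.Agent.helper19.SN.xAPC w_bCLS w_xPRX w_xLOC w_xCMP w_xHES w_aTRU w_aPER

theorem w_xMLC : Pool.Agent.helper69.SN.xMLC_stmt :=
  Pool.Agent.helper69.SN.xMLC w_xAPC w_aPER w_mMOB w_mMOC w_xPRX w_bCLS w_aCLO w_aCL2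

theorem w_xMAS : Pool.Agent.helper69.SN.xMAS_stmt :=
  Pool.Agent.helper69.SN.xMAS_of exists_test w_B_smooth w_B_le_A hess_normSq_of hess_add_of continuous_hess_of mD_nonneg_of hess_psd_of

theorem w_cPD : Pool.Agent.helper28.SN.cPD_stmt :=
  Pool.Agent.helper28.SN.cPD

theorem w_cIBP : Pool.Agent.helper28.SN.cIBP_stmt :=
  Pool.Agent.helper28.SN.cIBP

theorem w_cJAC : Pool.Agent.helper28.SN.cJAC_stmt :=
  Pool.Agent.helper28.SN.cJAC w_cPD w_cIBP

theorem w_cMDZ : Pool.Agent.helper28.SN.cMDZ_stmt :=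
  Pool.Agent.helper28.SN.cMDZ w_cPD w_cJAC

theorem w_cCNT : Pool.Agent.helper28.SN.cCNT_stmt :=
  Pool.Agent.helper28.SN.cCNT w_aCNT continuous_hess_of

theorem w_cREG : Pool.Agent.helper28.SN.cREG_stmt :=
  Pool.Agent.helper28.SN.cREG

theorem w_cRMX : Pool.Agent.helper28.SN.cRMX_stmt :=
  Pool.Agent.helper28.SN.cRMX

theorem w_cLOC : Pool.Agent.helper28.SN.cLOC_stmt :=
  Pool.Agent.helper81.SN.cLOC

theorem w_cRAD : Pool.Agent.helper28.SN.cRAD_stmt :=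
  Pool.Agent.helper28.SN.cRAD w_cREG hess_psd_of continuous_hess_of

theorem w_cMON : Pool.Agent.helper28.SN.cMON_stmt :=
  Pool.Agent.helper28.SN.cMON

theorem w_cPRJ : Pool.Agent.helper28.SN.cPRJ_stmt :=
  Pool.Agent.helper28.SN.cPRJ w_cPD exists_smooth_of

theorem w_cVB : Pool.Agent.helper28.SN.cVB_stmt :=
  Pool.Agent.helper28.SN.cVB w_cPRJ w_aRNK exists_smooth_of hess_psd_of w_B_smooth w_tendsto_B

theorem w_cVAN : Pool.Agent.helper28.SN.cVAN_stmt :=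
  Pool.Agent.helper28.SN.cVAN w_cVB exists_test mD_nonneg_of hess_psd_of w_B_smooth w_tendsto_B continuous_hess_of

theorem w_cBDD : Pool.Agent.helper28.SN.cBDD_stmt :=
  Pool.Agent.helper28.SN.cBDD exists_test mD_nonneg_of hess_psd_of w_B_smooth w_tendsto_B continuous_hess_of

theorem w_dGEO : Pool.Agent.helper40.SN.dGEO_stmt :=
  Pool.Agent.helper40.SN.dGEO

theorem w_dBND : Pool.Agent.helper40.SN.dBND_stmt :=
  Pool.Agent.helper40.SN.dBND

theorem w_dLIP : Pool.Agent.helper40.SN.dLIP_stmt :=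
  Pool.Agent.helper40.SN.dLIP

theorem w_dZER : Pool.Agent.helper40.SN.dZER_stmt :=
  Pool.Agent.helper40.SN.dZER hess_psd_of w_aPSD

theorem w_dSTR : Pool.Agent.helper40.SN.dSTR_stmt :=
  Pool.Agent.helper40.SN.dSTR w_aCNG

theorem w_dJEN : Pool.Agent.helper40.SN.dJEN_stmt :=
  Pool.Agent.helper40.SN.dJEN

theorem w_dCAP : Pool.Agent.helper40.SN.dCAP_stmt :=
  Pool.Agent.helper40.SN.dCAP w_dGEO w_dSTR w_dJEN w_bQUA w_aCLO flat_submodule_of flat_add_of flat_sum_of hess_psd_of hess_add_of hess_smul_of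

theorem w_dWQ : Pool.Agent.helper40.SN.dWQ_stmt :=
  Pool.Agent.helper40.SN.dWQ w_bPER w_bCLS w_dGEO w_aPSD

theorem w_dPOT : Pool.Agent.helper40.SN.dPOT_stmt :=
  Pool.Agent.helper40.SN.dPOT w_aCLO w_aPSD w_bCLS w_dGEO w_dBND w_dLIP w_dWQ w_cREG w_cRMX w_cLOC hess_psd_of hess_add_of hess_smul_of hess_sum_of

theorem w_dMNO : Pool.Agent.helper40.SN.dMNO_stmt :=
  Pool.Agent.helper40.SN.dMNO w_aDNN w_aDER w_cCNT hess_psd_of

theorem w_dVAD : Pool.Agent.helper40.SN.dVAD_stmt :=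
  Pool.Agent.helper40.SN.dVAD w_aHOM w_aSUP w_aPSD

theorem w_dHOP : Pool.Agent.helper40.SN.dHOP_stmt :=
  Pool.Agent.helper40.SN.dHOP w_aCLO w_aNXT w_dBND w_dWQ w_dMNO hess_psd_of hess_add_of hess_smul_of

theorem w_dNCV : Pool.Agent.helper40.SN.dNCV_stmt :=
  Pool.Agent.helper40.SN.dNCV w_loc_lip

theorem w_aBAR : Pool.Agent.helper69.SN.aBAR_stmt :=
  Pool.Agent.helper69.SN.aBAR_of w_aREC w_aDER w_aHYP w_aEQV w_aCLO w_aPBD w_aCL2

theorem w_aBSM : Pool.Agent.helper69.SN.aBSM_stmt :=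
  Pool.Agent.helper69.SN.aBSM_of w_aBAR

theorem w_aTAY : Pool.Agent.helper69.SN.aTAY_stmt :=
  Pool.Agent.helper69.SN.aTAY_of w_aREC w_aDER w_aHOM w_aPSD w_aSUP w_aDNN w_aBAR

theorem w_xTCH : Pool.Agent.helper69.SN.xTCH_stmt :=
  Pool.Agent.helper85.SN.xTCH w_bPER w_bLGL w_bQUA w_bCVX w_aPER w_aBSM w_aCLO

theorem w_xBDR : Pool.Agent.helper69.SN.xBDR_stmt :=
  Pool.Agent.helper69.SN.xBDR_of w_bPER w_bCLS w_xPRX w_xLOC w_xTCH w_aPER w_aBSM w_aCLO w_loc_lip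

theorem w_bEX : Pool.Agent.helper69.SN.bEX_stmt :=
  Pool.Agent.helper69.SN.bEX_of w_bPER w_bCLS w_xPRX w_xLOC w_mMOA w_mRAD w_xMLC w_xBDR w_xMAS w_aSML w_aCL2

theorem w_cMCF : Pool.Agent.helper28.SN.cMCF_stmt :=
  Pool.Agent.helper28.SN.cMCF w_cMDZ hess_add_of hess_smul_of mD_update_add_of mD_update_smul_of continuous_hess_of w_cLOC

theorem w_cMCP : Pool.Agent.helper28.SN.cMCP_stmt :=
  Pool.Agent.helper28.SN.cMCP w_cMCF

theorem w_cCMP : Pool.Agent.helper28.SN.cCMP_stmt :=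
  Pool.Agent.helper28.SN.cCMP w_cREG w_cRMX w_cLOC w_cMCP w_cCNT w_aCLO w_aDNN hess_psd_of

theorem w_cCLN : Pool.Agent.helper28.SN.cCLN_stmt :=
  Pool.Agent.helper28.SN.cCLN w_cRAD w_cCMP w_cMON w_cCNT w_aPSD w_aDNN

theorem w_cLIM : Pool.Agent.helper28.SN.cLIM_stmt :=
  Pool.Agent.helper28.SN.cLIM w_cCLN w_cVAN w_cBDD mD_nonneg_of hess_psd_of hess_normSq_of continuous_hess_of

theorem w_dXQ : Pool.Agent.helper40.SN.dXQ_stmt :=
  Pool.Agent.helper40.SN.dXQ w_bPER w_bCLS w_bSCD w_aBSM w_aMAX w_aCLO w_aPSD w_dGEO hess_psd_of hess_add_of hess_smul_of hess_sum_of hess_normSq_of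

theorem w_dXA : Pool.Agent.helper40.SN.dXA_stmt :=
  Pool.Agent.helper40.SN.dXA w_bEX w_bCLS w_aBSM w_aTAY w_aDNN w_aCNT w_dWQ w_dGEO

theorem w_dCOM : Pool.Agent.helper40.SN.dCOM_stmt :=
  Pool.Agent.helper40.SN.dCOM w_aCLO w_bGLU w_dGEO w_dWQ w_dXQ hess_psd_of hess_add_of hess_smul_of hess_sum_of

theorem w_dCMP : Pool.Agent.helper40.SN.dCMP_stmt :=
  Pool.Agent.helper40.SN.dCMP w_cCMP w_cCNT w_aDER w_aDNN

theorem w_dPTT : Pool.Agent.helper40.SN.dPTT_stmt :=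
  Pool.Agent.helper40.SN.dPTT w_cCNT w_aDER w_dGEO w_dBND w_dWQ w_dXQ w_dXA w_dCOM w_dCMP w_dMNO w_dVAD

theorem w_dEND : Pool.Agent.helper40.SN.dEND_stmt :=
  Pool.Agent.helper40.SN.dEND w_cCNT w_aDER hess_psd_of w_aCLO w_bCLS w_dLIP w_dGEO w_dBND w_dWQ w_dXQ w_dXA w_dCOM w_dCMP w_dMNO

theorem w_dBAS : Pool.Agent.helper40.SN.dBAS_stmt :=
  Pool.Agent.helper40.SN.dBAS w_cLIM w_aDNN w_cCNT

theorem w_dIND : Pool.Agent.helper40.SN.dIND_stmt :=
  Pool.Agent.helper40.SN.dIND w_dZER w_dCAP w_dPTT w_dHOP w_dBAS w_dEND w_dPOT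

theorem w_dCOR : Pool.Agent.helper40.SN.dCOR_stmt :=
  Pool.Agent.helper40.SN.dCOR w_dIND w_dNCV w_cCMP w_aDER w_cCNT w_aCLO w_aPSD w_aALL w_B_smooth mD_nonneg_of hess_add_of hess_normSq_of hess_psd_of exists_smooth_of w_tendsto_B exists_test

end Pool.Agent.helper40.SN.W
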