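import Pool.Agent.helper40.SN.SpecD

open scoped Pointwise ContDiff
open MeasureTheory Set Filter Topology Pool.Agent.helper83.SC Pool.Agent.helper69.SN

namespace Pool.Agent.helper40.SN

/-- Monotonicity of `Near`. -/
theorem Near.mono {m n : ℕ} {h : Fin n → E m → ℝ} {η η' R R' : ℝ} {a : Fin n → E m → ℝ}
    (H : Near h η R a) (h1 : η ≤ η') (h2 : R' ≤ R) : Near h η' R' a :=
  ⟨H.1, fun i x hx => (H.2 i x (hx.trans h2)).trans h1⟩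

/-- The set where `w` is small is measurable. -/
theorem meas_small {m n : ℕ} (hWQ : dWQ_stmt) (S : Finset (Fin n)) (D : Submodule ℝ (E m))
    (r : ℝ) (a : Fin n → E m → ℝ) (hm : 1 ≤ m) (ha : ∀ i, SmC (a i)) (ρ δ : ℝ) :
    MeasurableSet {x | ‖x‖ ≤ ρ ∧ wf S D r a x < δ} := by
  have h1 : IsClosed {x : E m | ‖x‖ ≤ ρ} := isClosed_le continuous_norm continuous_const
  have h2 : IsOpen {x : E m | wf S D r a x < δ} :=
    isOpen_lt (hWQ S D r a hm ha).1 continuous_const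
  exact h1.measurableSet.inter h2.measurableSet

/-- All the statements `Sm_{T,j}`, `j ∈ J`, with the same constants. -/
theorem usm (hWQ : dWQ_stmt) (hMNO : dMNO_stmt) {m n : ℕ} (S T : Finset (Fin n))
    (D : Submodule ℝ (E m)) (h : Fin n → E m → ℝ) (r : ℝ) (hm : 1 ≤ m) (J : Finset (Fin n))
    (hJ : ∀ j ∈ J, Sm S T j D h r) :
    ∃ ρ : ℝ, 0 < ρ ∧ ρ ≤ 1 ∧ ∀ L τ : ℝ, 1 ≤ L → 0 < τ → ∃ K₀ : ℝ, ∀ K : ℝ, K₀ ≤ K →
      ∃ δ η R : ℝ, 0 < δ ∧ 0 < η ∧ ∀ a : Fin n → E m → ℝ, Near h η R a →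
      ∀ X : E m → ℝ, InCl T K a X → (∀ x, ‖x‖ ≤ 1 → |X x| ≤ L) →
      ∀ j ∈ J, sm T K j a {x | ‖x‖ ≤ ρ ∧ wf S D r a x < δ} X ≤ τ * K ^ T.card := by
  classical
  induction J using Finset.induction_on with
  | empty =>
    refine ⟨1, one_pos, le_rfl, fun L τ _ _ => ⟨0, fun K _ => ⟨1, 1, 1, one_pos, one_pos, ?_⟩⟩⟩
    intro a _ X _ _ j hj
    exact absurd hj (Finset.notMem_empty j)
  | insert j J hj ih =>
    obtain ⟨ρ₁, hρ₁, hρ₁', H₁⟩ := hJ j (Finset.mem_insert_self j J)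
    obtain ⟨ρ₂, hρ₂, hρ₂', H₂⟩ := ih (fun i hi => hJ i (Finset.mem_insert_of_mem hi))
    refine ⟨min ρ₁ ρ₂, lt_min hρ₁ hρ₂, (min_le_left _ _).trans hρ₁', fun L τ hL hτ => ?_⟩
    obtain ⟨K₁, G₁⟩ := H₁ L τ hL hτ
    obtain ⟨K₂, G₂⟩ := H₂ L τ hL hτ
    refine ⟨max (max K₁ K₂) 0, fun K hK => ?_⟩
    have hK0 : 0 ≤ K := (le_max_right _ _).trans hK
    obtain ⟨δ₁, η₁, R₁, hδ₁, hη₁, F₁⟩ :=
      G₁ K (((le_max_left _ _).trans (le_max_left _ _)).trans hK)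
    obtain ⟨δ₂, η₂, R₂, hδ₂, hη₂, F₂⟩ :=
      G₂ K (((le_max_right _ _).trans (le_max_left _ _)).trans hK)
    refine ⟨min δ₁ δ₂, min η₁ η₂, max R₁ R₂, lt_min hδ₁ hδ₂, lt_min hη₁ hη₂, ?_⟩
    intro a ha X hX hXL i hi
    have hsub : ∀ ρ' δ' : ℝ, min ρ₁ ρ₂ ≤ ρ' → min δ₁ δ₂ ≤ δ' →
        {x | ‖x‖ ≤ min ρ₁ ρ₂ ∧ wf S D r a x < min δ₁ δ₂} ⊆
          {x | ‖x‖ ≤ ρ' ∧ wf S D r a x < δ'} := by
      intro ρ' δ' h1 h2 x hx
      exact ⟨hx.1.trans h1, hx.2.trans_le h2⟩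
    have hcl : ∀ ρ' δ' : ℝ, ρ' ≤ 1 →
        {x | ‖x‖ ≤ ρ' ∧ wf S D r a x < δ'} ⊆ Metric.closedBall (0 : E m) 1 := by
      intro ρ' δ' h1 x hx
      rw [mem_closedBall_zero_iff]
      exact hx.1.trans h1
    have hme := fun ρ' δ' : ℝ => meas_small hWQ S D r a hm ha.1 ρ' δ'
    rcases Finset.mem_insert.1 hi with rfl | hi'
    · refine le_trans ?_ (F₁ a (ha.mono (min_le_left _ _) (le_max_left _ _)) X hX hXL)
      exact (hMNO T K i a X _ _ hK0 ha.1 hX (hsub ρ₁ δ₁ (min_le_left _ _) (min_le_left _ _))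
        (hcl ρ₁ δ₁ hρ₁') (hme _ _) (hme _ _)).2.1
    · refine le_trans ?_ (F₂ a (ha.mono (min_le_right _ _) (le_max_right _ _)) X hX hXL i hi')
      exact (hMNO T K i a X _ _ hK0 ha.1 hX (hsub ρ₂ δ₂ (min_le_right _ _) (min_le_right _ _))
        (hcl ρ₂ δ₂ hρ₂') (hme _ _) (hme _ _)).2.1

/-- The main inequality, common to dPTT and dEND. -/
theorem main_ineq (hGEO : dGEO_stmt) (hBND : dBND_stmt) (hWQ : dWQ_stmt) (hXQ : dXQ_stmt)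
    (hXA : dXA_stmt) (hCOM : dCOM_stmt) (hCMP : dCMP_stmt) (hMNO : dMNO_stmt)
    {m n : ℕ} (S T : Finset (Fin n)) (D : Submodule ℝ (E m))
    (h : Fin n → E m → ℝ) (r : ℝ) (hTS : T ⊆ S) (hTm : T.card < m) (hr : 0 < r)
    (hcv : ∀ i, CV (h i)) (hCap : ∀ ρ : ℝ, 0 < ρ → Cap S T D h ρ)
    (hSm : ∀ j ∈ S \ T, Sm S T j D h r) :
    ∃ ρ c ρ' γ L : ℝ, 0 < ρ ∧ 2 * ρ ≤ 1 ∧ 0 < c ∧ c ≤ 1 ∧ 0 < ρ' ∧ 0 < γ ∧ 1 ≤ L ∧
      ∀ τ : ℝ, 0 < τ → ∃ K₀ : ℝ, ∀ K : ℝ, K₀ ≤ K → 2 ≤ K ∧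
      ∃ δ₁ δ η R : ℝ, 0 < δ₁ ∧ 0 < δ ∧ 0 < η ∧ η ≤ 1 ∧ 1 ≤ R ∧
      ∀ a : Fin n → E m → ℝ, Near h η R a → ∃ v X₀ : E m → ℝ, ContDiff ℝ ∞ v ∧
        (∀ x, hess v x - γ • (1 : Mat m) ∈ GG (hs a (wt T 1 ∅ 0) x)) ∧
        (∀ x, ‖x‖ ≤ ρ' → Gf S T D a x + c ≤ v x) ∧
        (∀ x, ‖x‖ ≤ 1 → |Gf S T D a x| ≤ L) ∧ (∀ x, ‖x‖ ≤ 1 → |X₀ x| ≤ L) ∧
        (∀ x, wf S D r a x < δ → X₀ x ≤ Gf S T D a x + c / 4) ∧
        Cls (fun y => hs a (wt T K (S \ T) (cut δ₁ (wf S D r a y))) y)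
          (fun y => X₀ y + K * ∑ i ∈ T, a i y) ∧
        ∀ ε : ℝ, 0 < ε → ε ≤ c / 8 → ∃ X : E m → ℝ, InCl T K a X ∧
          (∀ x, ‖x‖ ≤ 1 → |X x - X₀ x| ≤ ε) ∧
          ∀ (V : E m → ℝ) (F : Set (E m)), InCl T K a V → (∀ x, ‖x‖ ≤ 2 * ρ → V x ≤ v x) →
            MeasurableSet F → F ⊆ Metric.ball 0 (2 * ρ) → (∀ x ∈ F, X x < V x) →
            ms T K a F V ≤ ε + 1 / 2 * (n * (τ * K ^ T.card)) := by
  classical
  have hm : 1 ≤ m := by omega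
  obtain ⟨ρ₀, hρ₀, hρ₀1, HS⟩ := usm hWQ hMNO S T D h r hm (S \ T) hSm
  set ρ : ℝ := min ρ₀ (min r 1 / 2) with hρdef
  have hρ : 0 < ρ := lt_min hρ₀ (by have := lt_min hr one_pos; linarith)
  have hρρ₀ : ρ ≤ ρ₀ := min_le_left _ _
  have hρ2 : ρ ≤ min r 1 / 2 := min_le_right _ _
  have h2r : 2 * ρ ≤ r := by have := min_le_left r 1; linarith
  have h21 : 2 * ρ ≤ 1 := by have := min_le_right r 1; linarith
  obtain ⟨N, c, ρ', γ, η₀, R₀, hNo, hN, hc, hc1, hρ', hγ, hη₀, HC⟩ := hCap ρ hρ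
  obtain ⟨L, hL, HB⟩ := hBND S T D h hcv 1
  refine ⟨ρ, c, ρ', γ, L, hρ, h21, hc, hc1, hρ', hγ, hL, fun τ hτ => ?_⟩
  obtain ⟨K₁, G⟩ := HS (L + 1) τ (by linarith) hτ
  refine ⟨max K₁ 2, fun K hK => ?_⟩
  have hK2 : 2 ≤ K := (le_max_right _ _).trans hK
  have hK0 : 0 ≤ K := by linarith
  refine ⟨hK2, ?_⟩
  obtain ⟨δ₁, η₁, R₁, hδ₁, hη₁, G₁⟩ := G K ((le_max_left _ _).trans hK)
  set A : ℝ := max (max K 2) (8 * L / δ₁) with hA
  have hA0 : 0 < A := lt_of_lt_of_le (by norm_num) ((le_max_right K 2).trans (le_max_left _ _))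
  refine ⟨δ₁, c / (4 * A), min 1 (min η₀ η₁), max 1 (max R₀ R₁), hδ₁, by positivity,
    lt_min one_pos (lt_min hη₀ hη₁), min_le_left _ _, le_max_left _ _, fun a ha => ?_⟩
  have ha0 : Near h η₀ R₀ a := ha.mono ((min_le_right _ _).trans (min_le_left _ _))
    ((le_max_left _ _).trans (le_max_right _ _))
  have ha1 : Near h η₁ R₁ a := ha.mono ((min_le_right _ _).trans (min_le_right _ _))
    ((le_max_right _ _).trans (le_max_right _ _))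
  have hab : Near h 1 1 a := ha.mono (min_le_left _ _) (le_max_left _ _)
  have hsm := ha.1
  obtain ⟨v, hv1, hv2, hv3, hv4⟩ := HC a ha0
  have hGb : ∀ x, ‖x‖ ≤ 1 → |Gf S T D a x| ≤ L := fun x hx => (HB a hab x hx).2.1
  have hab2 : ∀ x, ‖x‖ ≤ 1 → |∑ j ∈ S \ T, a j x| ≤ L := fun x hx => (HB a hab x hx).2.2.1
  obtain ⟨hX1, hX2, hX3, hX4, hX5⟩ := hXQ S T D r ρ K δ₁ L a hTS hTm hρ hK0 hδ₁ hsm
    (fun x hx => hGb x (hx.trans h21))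
  have hXb : ∀ x, ‖x‖ ≤ 1 → |Xf S T D r ρ K δ₁ a x| ≤ L := by
    intro x hx
    have hg := abs_le.1 (hGb x hx)
    rw [abs_le]
    refine ⟨hg.1.trans (hX2 x), ?_⟩
    by_cases hx2 : ‖x‖ ≤ 2 * ρ
    · exact hX4 x hx2
    · rw [hX3 x (by rw [mem_ball_zero_iff]; exact fun h => hx2 h.le)]
      exact hg.2
  have hcom := hCOM S T D r ρ K δ₁ L a hTS hTm hρ h2r h21 hK0 hδ₁ hL hsm
    (fun x hx => hGb x (hx.trans h21)) (fun x hx => hab2 x (hx.trans h21))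
  obtain ⟨-, -, hQ0, -⟩ := hGEO D
  refine ⟨v, Xf S T D r ρ K δ₁ a, hv1, hv2, hv4, hGb, hXb, ?_, hX5, ?_⟩
  · intro x hx
    have h1 := hcom x
    rw [← hA] at h1
    have h2 : A * wf S D r a x ≤ c / 4 := by
      have h3 : A * wf S D r a x ≤ A * (c / (4 * A)) := mul_le_mul_of_nonneg_left hx.le hA0.le
      have h4 : A * (c / (4 * A)) = c / 4 := by field_simp
      linarith
    have h3 := hQ0 x
    unfold Gf
    linarith
  · intro ε hε hε8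
    obtain ⟨X, hXc, hXe, hXm⟩ := hXA S T D r ρ K δ₁ a N hTS hTm hρ h21 hK0 hδ₁ hsm hN ε hε
    refine ⟨X, hXc, hXe, ?_⟩
    intro V F hVc hVv hFm hFs hFx
    have hcmp : ms T K a F V ≤ ms T K a (closure N) X := by
      refine hCMP T ρ K (c / 2) a N F V X hρ h21 hK0 (by linarith) hsm hN hVc hXc ?_ hFm hFs hFx
      intro x hx hxN
      have h1 := hVv x hx
      have h2 := hv3 x hx hxN
      have h3 := hX2 x
      have h4 := abs_le.1 (hXe x (hx.trans h21))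
      linarith
    refine hcmp.trans (hXm.trans ?_)
    have hsum : ∑ j ∈ S \ T, sm T K j a {x | ‖x‖ ≤ ρ ∧ wf S D r a x < δ₁} X
        ≤ n * (τ * K ^ T.card) := by
      have h1 : ∀ j ∈ S \ T, sm T K j a {x | ‖x‖ ≤ ρ ∧ wf S D r a x < δ₁} X
          ≤ τ * K ^ T.card := by
        intro j hj
        refine le_trans ?_ (G₁ a ha1 X hXc ?_ j hj)
        · refine (hMNO T K j a X _ _ hK0 hsm hXc ?_ ?_ (meas_small hWQ S D r a hm hsm _ _)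
            (meas_small hWQ S D r a hm hsm _ _)).2.1
          · intro x hx
            exact ⟨hx.1.trans hρρ₀, hx.2⟩
          · intro x hx
            rw [mem_closedBall_zero_iff]
            exact hx.1.trans hρ₀1
        · intro x hx
          have h2 := abs_le.1 (hXe x hx)
          have h3 := abs_le.1 (hXb x hx)
          rw [abs_le]
          constructor <;> linarith
      have h2 := Finset.sum_le_sum h1
      rw [Finset.sum_const, nsmul_eq_mul] at h2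
      refine h2.trans ?_
      have h3 : ((S \ T).card : ℝ) ≤ n := by
        have := Finset.card_le_univ (S \ T)
        rw [Fintype.card_fin] at this
        exact_mod_cast this
      have h4 : 0 ≤ τ * K ^ T.card := by positivity
      exact mul_le_mul_of_nonneg_right h3 h4
    linarith

end Pool.Agent.helper40.SN
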