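import Pool.Agent.helper69.SN.SpecB
import Pool.Agent.helper28.SN.SpecC

/-!
# Block D (rows sn:d..): the induction on dimension, and CORE

Project sn (MP_d2d7b9, frozen S13995).  Blueprint: /team-store/SCH_helper69e.md, sections D and E,
with the repairs of helper40: the potential `ψ` is global, all weights of `EP` are one, and there are
no sequences (everything is stated for all families `a` which are close to `h`).

RULES. File `Pool/Agent/<seat>/SN/dXXX.lean`: `import Pool.Agent.helper40.SN.SpecD`, `open scoped Pointwise ContDiff`,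
`open MeasureTheory Set Filter Topology Pool.Agent.helper83.SC Pool.Agent.helper69.SN`, `namespace Pool.Agent.helper40.SN`,
`theorem dXXX (h : YY_stmt) .. : dXXX_stmt`.  Hypotheses may be all the statements of SpecA, SpecB (helper69), SpecC
(`Pool.Agent.helper28.SN.cXXX_stmt`), of this file (no circles: an earlier row never uses a later one, except dNCV, which
may be used everywhere), and of the SC library (Pool/Agent/helper83/SC/Stmt.lean, all proved: Wire.lean).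
Auxiliary lemmas prefixed `dXXX_`.  No `sorry`.

Conventions of the proofs in the docstrings: `A_i = hess (a i)`, `w = wf S D r a`, `X = Xf ..`,
`G = Gf S T D a = Qf D + ∑_{S \ T} a_j`, `P(M, lam) = Ph (hs a lam x) M`.
-/

open scoped Pointwise ContDiff
open MeasureTheory Set Filter Topology

set_option linter.unusedVariables false

namespace Pool.Agent.helper40.SN

open Pool.Agent.helper83.SC Pool.Agent.helper69.SN

/-! ### Definitions -/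

/-- The orthogonal projection onto `D`, as a map of the whole space. -/
noncomputable def pj {m : ℕ} (D : Submodule ℝ (E m)) : E m →L[ℝ] E m := D.starProjection

/-- The square of the distance to `D`. -/
noncomputable def Qf {m : ℕ} (D : Submodule ℝ (E m)) (x : E m) : ℝ := ‖x - pj D x‖ ^ 2

/-- A bounded neighbourhood of a ball of `D`. -/
def Tube {m : ℕ} (D : Submodule ℝ (E m)) (r : ℝ) : Set (E m) :=
  {x | ‖pj D x‖ < r ∧ ‖x - pj D x‖ < 1}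

/-- The Hall condition relative to `D` at the origin for the functions `h i`, `i ∈ S`. -/
def Hall {m n : ℕ} (S : Finset (Fin n)) (D : Submodule ℝ (E m)) (h : Fin n → E m → ℝ) : Prop :=
  ∀ I : Finset (Fin n), I ⊆ S → ∀ W : Submodule ℝ (E m), W ≤ D →
    (∀ v ∈ W, ∀ i ∈ I, FlatAt (h i) 0 v) → Module.finrank ℝ W + I.card ≤ S.card

/-- Families of smooth convex functions which are `η`-close to `h` on the ball of radius `R`. -/
def Near {m n : ℕ} (h : Fin n → E m → ℝ) (η R : ℝ) (a : Fin n → E m → ℝ) : Prop :=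
  (∀ i, SmC (a i)) ∧ ∀ i x, ‖x‖ ≤ R → |a i x - h i x| ≤ η

/-- The existence of potentials: a function of the class `GG [A_S]` which is at most the squared
distance to `D` off a small tube, but positive near the origin, uniformly for `a` close to `h`. -/
def Pot {m n : ℕ} (S : Finset (Fin n)) (D : Submodule ℝ (E m)) (h : Fin n → E m → ℝ) (r : ℝ) :
    Prop :=
  ∃ δ η R : ℝ, 0 < δ ∧ 0 < η ∧ ∀ a : Fin n → E m → ℝ, Near h η R a →
    ∃ ψ : E m → ℝ, ContDiff ℝ ∞ ψ ∧ (∀ x, hess ψ x ∈ GG (hs a (wt S 1 ∅ 0) x)) ∧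
      (∀ x, x ∉ Tube D r → ψ x ≤ Qf D x) ∧ ∀ x, ‖x‖ ≤ δ → δ ≤ ψ x

/-- Statement `EP (d)`: potentials exist for `dim D = d` and functions of the projection to `D`. -/
def EP (m n d : ℕ) : Prop :=
  ∀ (S : Finset (Fin n)) (D : Submodule ℝ (E m)) (h : Fin n → E m → ℝ),
    Module.finrank ℝ D = d → (∀ i, CV (h i)) → (∀ i x, h i (pj D x) = h i x) → Hall S D h →
    ∀ r : ℝ, 0 < r → Pot S D h r

/-- Statement `EP*` for one `D`: the functions are arbitrary, the tube `N` is small, and the bound off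
the tube is a (large) multiple of the squared distance. -/
def PotS {m n : ℕ} (S : Finset (Fin n)) (D : Submodule ℝ (E m)) (h : Fin n → E m → ℝ) (ρ : ℝ) :
    Prop :=
  ∃ (N : Set (E m)) (C δ η R : ℝ), IsOpen N ∧ closure N ⊆ Metric.ball 0 ρ ∧ 0 < C ∧ 0 < δ ∧
    0 < η ∧ ∀ a : Fin n → E m → ℝ, Near h η R a →
    ∃ ψ : E m → ℝ, ContDiff ℝ ∞ ψ ∧ (∀ x, hess ψ x ∈ GG (hs a (wt S 1 ∅ 0) x)) ∧
      (∀ x, x ∉ N → ψ x ≤ C * Qf D x) ∧ ∀ x, ‖x‖ ≤ δ → δ ≤ ψ x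

/-- The obstacle `G`. -/
noncomputable def Gf {m n : ℕ} (S T : Finset (Fin n)) (D : Submodule ℝ (E m))
    (a : Fin n → E m → ℝ) (x : E m) : ℝ := Qf D x + ∑ j ∈ S \ T, a j x

/-- The cap: a function of the class `GG [A_T]` (even after subtracting `γ |x|²/2`) which is below the
obstacle `G` off a small set `N`, and above `G` near the origin. -/
def Cap {m n : ℕ} (S T : Finset (Fin n)) (D : Submodule ℝ (E m)) (h : Fin n → E m → ℝ) (ρ : ℝ) :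
    Prop :=
  ∃ (N : Set (E m)) (c ρ' γ η R : ℝ), IsOpen N ∧ closure N ⊆ Metric.ball 0 ρ ∧ 0 < c ∧ c ≤ 1 ∧
    0 < ρ' ∧ 0 < γ ∧ 0 < η ∧ ∀ a : Fin n → E m → ℝ, Near h η R a →
    ∃ v : E m → ℝ, ContDiff ℝ ∞ v ∧
      (∀ x, hess v x - γ • (1 : Mat m) ∈ GG (hs a (wt T 1 ∅ 0) x)) ∧
      (∀ x, ‖x‖ ≤ 2 * ρ → x ∉ N → v x ≤ Gf S T D a x - c) ∧
      ∀ x, ‖x‖ ≤ ρ' → Gf S T D a x + c ≤ v x

/-- The function `w`: the Perron function of the class `[A_S]` with the data `Qf D` off the tube. -/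
noncomputable def wf {m n : ℕ} (S : Finset (Fin n)) (D : Submodule ℝ (E m)) (r : ℝ)
    (a : Fin n → E m → ℝ) (x : E m) : ℝ :=
  per (fun y => hs a (wt S 1 ∅ 0) y) (Tube D r) (fun y => Qf D y + ∑ i ∈ S, a i y) x
    - ∑ i ∈ S, a i x

/-- The cutoff: `1` for `t ≤ δ / 2` and `0` for `t ≥ δ`. -/
noncomputable def cut (δ t : ℝ) : ℝ := min 1 (max 0 (2 - 2 * t / δ))

/-- The function `X`: the Perron function of the class `[K A_T, σ A_{S \ T}]`, with the data `G` off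
the ball of radius `2 ρ`; here `σ` is the cutoff of `w` at the level `δ`. -/
noncomputable def Xf {m n : ℕ} (S T : Finset (Fin n)) (D : Submodule ℝ (E m)) (r ρ K δ : ℝ)
    (a : Fin n → E m → ℝ) (x : E m) : ℝ :=
  per (fun y => hs a (wt T K (S \ T) (cut δ (wf S D r a y))) y) (Metric.ball 0 (2 * ρ))
    (fun y => Gf S T D a y + K * ∑ i ∈ T, a i y) x - K * ∑ i ∈ T, a i x

/-- Smooth functions of the class `GG [K A_T]` on the unit ball. -/
def InCl {m n : ℕ} (T : Finset (Fin n)) (K : ℝ) (a : Fin n → E m → ℝ) (Y : E m → ℝ) : Prop :=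
  ContDiff ℝ ∞ Y ∧ ∀ x, ‖x‖ ≤ 1 → hess Y x ∈ GG (hs a (wt T K ∅ 0) x)

/-- The mass. -/
noncomputable def ms {m n : ℕ} (T : Finset (Fin n)) (K : ℝ) (a : Fin n → E m → ℝ)
    (Z : Set (E m)) (Y : E m → ℝ) : ℝ := ∫ x in Z, Ph (hs a (wt T K ∅ 0) x) (hess Y x)

/-- The mass of the second derivative in the direction `a j`. -/
noncomputable def sm {m n : ℕ} (T : Finset (Fin n)) (K : ℝ) (j : Fin n) (a : Fin n → E m → ℝ)
    (Z : Set (E m)) (Y : E m → ℝ) : ℝ :=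
  ∫ x in Z, dPh (hs a (wt T K ∅ 0) x) 2 (hess (a j) x) (hess Y x)

/-- Statement `P_T`: the set where `w` is small has small capacity for `[K A_T]`, `K` large. -/
def PT {m n : ℕ} (S T : Finset (Fin n)) (D : Submodule ℝ (E m)) (h : Fin n → E m → ℝ) (r : ℝ) :
    Prop :=
  ∃ ρ : ℝ, 0 < ρ ∧ ρ ≤ 1 ∧ ∀ τ : ℝ, 0 < τ → ∃ K₀ : ℝ, ∀ K : ℝ, K₀ ≤ K → ∃ δ η R : ℝ,
    0 < δ ∧ 0 < η ∧ ∀ a : Fin n → E m → ℝ, Near h η R a → ∀ Y : E m → ℝ, InCl T K a Y →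
    (∀ x, ‖x‖ ≤ 1 → 0 ≤ Y x ∧ Y x ≤ 1) →
    ms T K a {x | ‖x‖ ≤ ρ ∧ wf S D r a x < δ} Y ≤ τ * K ^ T.card

/-- Statement `Sm_{T,j}`: the mass of the second derivative of bounded functions of the class `[K A_T]`
in the direction `a j` is small on the set where `w` is small. -/
def Sm {m n : ℕ} (S T : Finset (Fin n)) (j : Fin n) (D : Submodule ℝ (E m))
    (h : Fin n → E m → ℝ) (r : ℝ) : Prop :=
  ∃ ρ : ℝ, 0 < ρ ∧ ρ ≤ 1 ∧ ∀ L τ : ℝ, 1 ≤ L → 0 < τ → ∃ K₀ : ℝ, ∀ K : ℝ, K₀ ≤ K →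
    ∃ δ η R : ℝ, 0 < δ ∧ 0 < η ∧ ∀ a : Fin n → E m → ℝ, Near h η R a →
    ∀ X : E m → ℝ, InCl T K a X → (∀ x, ‖x‖ ≤ 1 → |X x| ≤ L) →
    sm T K j a {x | ‖x‖ ≤ ρ ∧ wf S D r a x < δ} X ≤ τ * K ^ T.card

/-! ### Rows -/

/-- dGEO. Elementary facts on the projection, `Qf` and the tube.
`Qf D x = ‖x - pj D x‖²` is a quadratic form, `Qf D x = ‖x‖² - ‖pj D x‖²`;
convex: a square of a norm of a linear map.  `x ∈ Tube`: `‖x‖ ≤ ‖pj x‖ + ‖x - pj x‖ < r + 1`.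
Flat: `FlatAt (Qf D) 0 v` says `2 ε² Qf D v = 0`. -/
def dGEO_stmt : Prop := ∀ {m : ℕ} (D : Submodule ℝ (E m)),
  SmC (Qf D) ∧ (∀ x, (hess (Qf D) x).PosSemidef) ∧ (∀ x, 0 ≤ Qf D x) ∧ (∀ x ∈ D, Qf D x = 0) ∧
  (∀ x, Qf D x ≤ ‖x‖ ^ 2) ∧ (∀ r, IsOpen (Tube D r)) ∧ (∀ r x, x ∈ Tube D r → ‖x‖ < r + 1) ∧
  (∀ r ρ, ρ ≤ r → ρ ≤ 1 → Metric.ball 0 ρ ⊆ Tube D r) ∧ (∀ v, FlatAt (Qf D) 0 v → v ∈ D) ∧
  (∀ x, ‖pj D x‖ ≤ ‖x‖) ∧ (∀ x ∈ D, pj D x = x) ∧ (∀ x, pj D x ∈ D) ∧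
  (∀ x, Qf D x = 0 → x ∈ D)

/-- dBND. Uniform bounds for families close to `h`. `h i` is continuous, hence bounded on the ball. -/
def dBND_stmt : Prop := ∀ {m n : ℕ} (S T : Finset (Fin n)) (D : Submodule ℝ (E m))
  (h : Fin n → E m → ℝ), (∀ i, CV (h i)) → ∀ R : ℝ, ∃ L : ℝ, 1 ≤ L ∧
  ∀ a : Fin n → E m → ℝ, Near h 1 R a → ∀ x, ‖x‖ ≤ R →
    (∀ i, |a i x| ≤ L) ∧ |Gf S T D a x| ≤ L ∧ |∑ j ∈ S \ T, a j x| ≤ L ∧ |∑ j ∈ T, a j x| ≤ L

/-- dLIP. A convex function bounded by `L` on the ball of radius `R + s` is `2 L / s`-Lipschitz on the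
ball of radius `R` (elementary; on the segment through `x, y` prolonged by `s`). -/
def dLIP_stmt : Prop := ∀ {m : ℕ} (f : E m → ℝ), CV f → ∀ (R s L : ℝ), 0 < s →
  (∀ x, ‖x‖ ≤ R + s → |f x| ≤ L) → ∀ x y, ‖x‖ ≤ R → ‖y‖ ≤ R → |f x - f y| ≤ 2 * L / s * ‖x - y‖

/-- dZER. `EP (0)`. `D = ⊥`, `pj = 0`, `Qf x = ‖x‖²`, `Tube = {‖x‖ < 1}`.  `ψ = 1/2`, `δ = 1/2`
(`hess ψ = 0 ∈ GG` by aPSD). -/
def dZER_stmt : Prop := ∀ m n : ℕ, EP m n 0

/-- dSTR. `EP (dim D)` implies `EP*` for `D`.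
Put `h' i = h i ∘ pj D` (convex; `Hall S D h'` holds since for `v ∈ D` flatness of `h' i` and `h i` at
`0` along `v` are the same).  `EP` with `r = ρ / 3` gives `δ, η, R` (`R ≥ 1` w.l.o.g.).  For `κ ≥ 1` let
`T x = pj D x + κ (x - pj D x)` (symmetric, invertible, `T⁻¹ x = pj D x + κ⁻¹ (x - pj D x)`,
`‖T⁻¹ x‖ ≤ ‖x‖`).  `κ` large: `|h i (T⁻¹ x) - h i (pj D x)| ≤ η / 2` for `‖x‖ ≤ R` (uniform
continuity of `h i` on the ball `R`: `‖T⁻¹ x - pj D x‖ ≤ R / κ`), and `1 / κ ≤ ρ / 3`.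
If `Near h (η/2) R a` then `a' i = a i ∘ T⁻¹` is smooth convex and `Near h' η R a'`; let `ψ'` be the
potential for `a'` and `ψ = ψ' ∘ T`.  `hess ψ x = T (hess ψ' (T x)) T`, `hess (a i) x = T (hess (a' i)
(T x)) T`, so aCNG gives the class.  `N = {x | T x ∈ Tube D r} = {‖pj x‖ < r, ‖x - pj x‖ < 1/κ}` is open
with closure in the ball of radius `ρ` (`r + 1/κ ≤ 2ρ/3`).  Off `N`: `ψ x ≤ Qf D (T x) = κ² Qf D x`.
`‖x‖ ≤ δ / κ` implies `‖T x‖ ≤ δ`. -/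
def dSTR_stmt : Prop := ∀ {m n : ℕ} (S : Finset (Fin n)) (D : Submodule ℝ (E m))
  (h : Fin n → E m → ℝ), EP m n (Module.finrank ℝ D) → (∀ i, CV (h i)) → Hall S D h →
  ∀ ρ : ℝ, 0 < ρ → PotS S D h ρ

/-- dJEN. Convex geometry: an affine function plus a small multiple of the squared distance to `D'`
lies below `g` on `Z` and above `g` at `0`, if `D'` contains all flat directions of `g` at `0`.
Proof. Suppose not; for `Λ = 1/k` let `g_k = g - Λ C Qf D'` and `b_k = g 0 - Λ δ / 2`.  If the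
convex hull `H_k` of the graph of `g_k` over `Z` (compact) did not meet the ray `{(0, s) | s ≤ b_k}`,
separate them strictly (`geometric_hahn_banach_compact_closed`) by a functional `(q, τ)`:
`q·x + τ t > α` on `H_k`, `τ s < α` on the ray, `τ ≥ 0`; if `τ > 0` the affine function
`(α - q·x)/τ`, and if `τ = 0` (`α > 0`) the affine function `b_k - M q·x` with large `M`, shifted to take
the value `b_k` at `0`, is strictly below `g_k` on `Z` with a margin (compactness), and gives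
the conclusion with `c` small: `q' + Λ δ = g 0 + Λ δ / 2`.  So there are `s_k ≤ b_k` and a point
`(0, u_k, v_k)` of the convex hull `H` of `{(x, g x, Qf D' x) | x ∈ Z}` (compact: `IsCompact.convexHull`
in finite dimension) with `u_k - Λ C v_k = s_k ≤ b_k`.  Jensen: `u_k ≥ g 0`, so
`v_k ≥ δ / (2 C)`, and `u_k ≤ g 0 + Λ C v_k`.  A limit point `(0, u, v) ∈ H` has `u ≤ g 0`, `v > 0`:
a finite convex combination `∑ λ_i x_i = 0`, `∑ λ_i g x_i ≤ g 0`, `∑ λ_i Qf D' x_i > 0`, `x_i ∈ Z`,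
`λ_i > 0`.  For each `i` with `λ_i < 1` put `y = -(λ_i/(1 - λ_i)) x_i`, the barycentre of the other
points; `λ_i g x_i + (1 - λ_i) g y ≤ g 0`, so `g` is affine on the segment from `x_i` to `y` which
contains `0` in its interior, hence `FlatAt g 0 x_i` and `x_i ∈ D'` (if `λ_i = 1`, `x_i = 0`).
So all `Qf D' x_i = 0`, contradiction. -/
def dJEN_stmt : Prop := ∀ {m : ℕ} (g : E m → ℝ), CV g → ∀ (D' : Submodule ℝ (E m)),
  (∀ v, FlatAt g 0 v → v ∈ D') → ∀ Z : Set (E m), IsCompact Z → ∀ C δ : ℝ, 0 < C → 0 < δ →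
  ∃ (Λ c q : ℝ) (p : E m), 0 < Λ ∧ Λ ≤ 1 ∧ 0 < c ∧
    (∀ x ∈ Z, inner ℝ p x + q + Λ * (C * Qf D' x) ≤ g x - c) ∧ g 0 + c ≤ q + Λ * δ

/-- dCAP. The cap.  `D' = D ⊓ {v | ∀ j ∈ S \ T, FlatAt (h j) 0 v}` (submodule by `flat_submodule`).
Hall with `I = S \ T`, `W = D'` gives `dim D' ≤ |T|`; and `Hall T D' h` (for `I ⊆ T`, `W ≤ D'` use Hall
with `I ∪ (S \ T)`).  So dSTR (with `EP (dim D')`) gives `PotS T D' h ρ`: `N, C, δ, η, R`, `ψ`.
dJEN with `g = Gf S T D h` (flat directions: `flat_add`, `flat_sum`, dGEO give `v ∈ D'`),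
`Z = closedBall 0 (2ρ) \ N`: `Λ, c, q, p`.  `v = ⟨p,·⟩ + q + Λ ψ + γ ‖x‖²/2`, `γ` small, satisfies all with
`c/2` (or `c/4`) for `a` close to `h` on the ball of radius `2ρ + 1` (`|Gf a - Gf h| ≤ n η`), and
`ρ'` small (near `0`: `ψ ≥ δ`, `Gf h` is continuous).  `hess v - γ = Λ hess ψ ∈ GG` (aCLO, `Λ ≤ 1`). -/
def dCAP_stmt : Prop := ∀ {m n : ℕ} (S T : Finset (Fin n)) (D : Submodule ℝ (E m))
  (h : Fin n → E m → ℝ), T ⊆ S → (∀ d, d ≤ T.card → EP m n d) → (∀ i, CV (h i)) → Hall S D h →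
  ∀ ρ : ℝ, 0 < ρ → Cap S T D h ρ

/-- dWQ. First properties of `w` (bPER; `κ₀ = Qf D + ∑_S a` is in the class (bCLS) because
`hess κ₀ - ∑_S A = hess (Qf D)` is positive semidefinite (aPSD); `w + ∑_S a` is in the class, so it is
continuous (bCLS), and `w` is continuous). -/
def dWQ_stmt : Prop := ∀ {m n : ℕ} (S : Finset (Fin n)) (D : Submodule ℝ (E m)) (r : ℝ)
  (a : Fin n → E m → ℝ), 1 ≤ m → (∀ i, SmC (a i)) →
  Continuous (wf S D r a) ∧ (∀ x, Qf D x ≤ wf S D r a x) ∧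
  (∀ x, x ∉ Tube D r → wf S D r a x = Qf D x) ∧
  Cls (fun y => hs a (wt S 1 ∅ 0) y) (fun y => wf S D r a y + ∑ i ∈ S, a i y) ∧
  ∀ κ, Cls (fun y => hs a (wt S 1 ∅ 0) y) κ →
    (∀ y, y ∉ Tube D r → κ y ≤ Qf D y + ∑ i ∈ S, a i y) →
    ∀ x, κ x ≤ wf S D r a x + ∑ i ∈ S, a i x

/-- dPOT. A lower bound for `w (0)` gives potentials.
`κ = w + ∑_S a` is convex; for `a` close to `h` (dBND with `R = r + 3`) it is bounded by some `L` on the
ball of radius `r + 3` (above: on the sphere it is `Qf D + ∑ a`, convexity; below: `κ ≥ Qf D + ∑ a`),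
so `κ` and `∑_S a` are `2L`-Lipschitz on the ball of radius `1` (dLIP): `w ≥ δ/2` on `‖x‖ ≤ δ/(8L)`.
Take a smooth approximation `κ'` of `κ` in the class on the ball of radius `r + 3` within `ε = δ/32`,
`u = κ' - ∑_S a - 2ε`, `u ≤ w - ε` there, so `u ≤ Qf D - ε` off the tube, and
`ψ = rmx θ ε u (Qf D)` (cREG, cRMX, or bRMX) on the ball of radius `r + 3`, `ψ = Qf D`
outside: `ψ = Qf D` off the tube (closure of the tube inside the ball `r + 2`), `ψ ≥ u ≥ δ/4` near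
`0`; class: both `hess u` and `hess (Qf D)` are in `GG [A_S]` (convex cone). -/
def dPOT_stmt : Prop := ∀ {m n : ℕ} (S : Finset (Fin n)) (D : Submodule ℝ (E m))
  (h : Fin n → E m → ℝ) (r : ℝ), 1 ≤ m → 0 < r → (∀ i, CV (h i)) →
  (∃ δ η R : ℝ, 0 < δ ∧ 0 < η ∧ ∀ a : Fin n → E m → ℝ, Near h η R a → δ ≤ wf S D r a 0) →
  Pot S D h r

/-- dXQ. First properties of `X`.  The family `y ↦ hs a (wt T K (S \ T) σ(y)) y` is continuous
and positive semidefinite (`σ = cut δ ∘ w` is continuous with values in `[0,1]`), and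
`κ₀ = G + K ∑_T a` is in its class: `hess κ₀ - K A_T - σ A_{S \ T} = hess (Qf D) + (1 - σ) A_{S\T} ≥ 0`.
Everything but the upper bound is bPER and bCLS.  Upper bound: bMXP with `b = K ∑_T a`,
`U` the ball of radius `2ρ`... off `U` (on the sphere, where `X = G ≤ L`); since bMXP asks `κ - b ≤ L` off `U`, use the
local form: for a smooth approximation `κ'` of the Perron function on the ball of radius `2ρ + 1`
put `X' = κ' - K ∑_T a`.  `hess X' ∈ GG [K A_T]` (aBSM removes the `σ A_j`).  If `X' + ε‖x‖²` had a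
maximum over the closed ball `2ρ` at an interior point, its Hessian there is `≤ 0` (bSCD), so
`hess X' ≤ -2ε`, and adding a positive semidefinite matrix `-2ε·1 ∈ GG [K A_T]`: excluded by aMAX.
So `X' + ε‖x‖² ≤` its maximum on the sphere `≤ L + (error) + ε (2ρ)²`; let `ε` and the error tend to `0`. -/
def dXQ_stmt : Prop := ∀ {m n : ℕ} (S T : Finset (Fin n)) (D : Submodule ℝ (E m))
  (r ρ K δ L : ℝ) (a : Fin n → E m → ℝ), T ⊆ S → T.card < m → 0 < ρ → 0 ≤ K → 0 < δ →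
  (∀ i, SmC (a i)) → (∀ x, ‖x‖ ≤ 2 * ρ → |Gf S T D a x| ≤ L) →
  Continuous (Xf S T D r ρ K δ a) ∧ (∀ x, Gf S T D a x ≤ Xf S T D r ρ K δ a x) ∧
  (∀ x, x ∉ Metric.ball (0 : E m) (2 * ρ) → Xf S T D r ρ K δ a x = Gf S T D a x) ∧
  (∀ x, ‖x‖ ≤ 2 * ρ → Xf S T D r ρ K δ a x ≤ L) ∧
  Cls (fun y => hs a (wt T K (S \ T) (cut δ (wf S D r a y))) y)
    (fun y => Xf S T D r ρ K δ a y + K * ∑ i ∈ T, a i y)

/-- dXA. Approximation of `X` (bEX with `U` the ball of radius `2ρ`, `Z = closure N`, `R = 1`,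
`X'' = κ' - K ∑_T a`; the class `[K A_T]` by aBSM), and then aTAY (pointwise, `A i = hess (a i) x`,
`s = σ(x)`), integrated: there is a smooth `X''` of the class `[K A_T]` on the unit ball, close to `X`, with
`∫_{closure N} Ph [K A_T] (hess X'') ≤ ε + 1/2 ∑_{j ∈ S \ T} ∫_{‖x‖ ≤ ρ, w < δ} ∂²_{A j} Ph [K A_T] (hess X'')`.
(`σ² ≤ 1`, `σ = 0` where `w ≥ δ`; `∂² ≥ 0` by aDNN.) -/
def dXA_stmt : Prop := ∀ {m n : ℕ} (S T : Finset (Fin n)) (D : Submodule ℝ (E m))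
  (r ρ K δ : ℝ) (a : Fin n → E m → ℝ) (N : Set (E m)), T ⊆ S → T.card < m → 0 < ρ → 2 * ρ ≤ 1 →
  0 ≤ K → 0 < δ → (∀ i, SmC (a i)) → closure N ⊆ Metric.ball 0 ρ → ∀ ε : ℝ, 0 < ε →
  ∃ X : E m → ℝ, InCl T K a X ∧ (∀ x, ‖x‖ ≤ 1 → |X x - Xf S T D r ρ K δ a x| ≤ ε) ∧
    ms T K a (closure N) X ≤ ε + 1 / 2 * ∑ j ∈ S \ T, sm T K j a {x | ‖x‖ ≤ ρ ∧ wf S D r a x < δ} X

/-- dCOM. The competitor: `X - ∑_{S \ T} a ≤ A w` with `A = max (max K 2) (8 L / δ)`.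
`v = (X - ∑_{S\T} a)/A`.  On the open set `O = {w < δ/2}` the cutoff is `1`; smooth approximations `κ'`
of `X + K ∑_T a` in its class give `v' = (κ' - K ∑_T a - ∑_{S\T} a)/A` with
`hess v' = (hess κ' - K A_T - A_{S\T})/A ∈ GG [(K/A) A_T, (1/A) A_{S\T}] ⊆ GG [A_S]` on `O` (aCLO).
Off `O`: `v ≤ w - δ/4`: in the ball `2ρ`, `v ≤ 2L/A ≤ δ/4 ≤ w - δ/4`; outside, `v = Qf D / A ≤ w/2 ≤
w - δ/4`.  Off the tube (so off the ball `2ρ`) `v = Qf D / A ≤ Qf D`.  So `max (w, v) + ∑_S a` is in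
the class of `w` (gluing row of block B) and competes: `v ≤ w`. -/
def dCOM_stmt : Prop := ∀ {m n : ℕ} (S T : Finset (Fin n)) (D : Submodule ℝ (E m))
  (r ρ K δ L : ℝ) (a : Fin n → E m → ℝ), T ⊆ S → T.card < m → 0 < ρ → 2 * ρ ≤ r → 2 * ρ ≤ 1 →
  0 ≤ K → 0 < δ → 1 ≤ L → (∀ i, SmC (a i)) → (∀ x, ‖x‖ ≤ 2 * ρ → |Gf S T D a x| ≤ L) →
  (∀ x, ‖x‖ ≤ 2 * ρ → |∑ j ∈ S \ T, a j x| ≤ L) →
  ∀ x, Xf S T D r ρ K δ a x - ∑ j ∈ S \ T, a j x ≤ max (max K 2) (8 * L / δ) * wf S D r a x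

/-- dCMP. Comparison on the ball of radius `2ρ` (cCMP, `r = 0`, aDER: `dPh .. 0 .. = Ph`), in the form needed: if the smooth
function `V` of the class `[K A_T]` on the unit ball is at most `X''` at the points of the ball `2ρ`
which are not in `N`, with a margin, then the mass of `V` on any set where `V > X''` is at most the mass
of `X''` on the closure of `N`. -/
def dCMP_stmt : Prop := ∀ {m n : ℕ} (T : Finset (Fin n)) (ρ K c : ℝ) (a : Fin n → E m → ℝ)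
  (N F : Set (E m)) (V X : E m → ℝ), 0 < ρ → 2 * ρ ≤ 1 → 0 ≤ K → 0 < c → (∀ i, SmC (a i)) →
  closure N ⊆ Metric.ball 0 ρ → InCl T K a V → InCl T K a X →
  (∀ x, ‖x‖ ≤ 2 * ρ → x ∉ N → V x ≤ X x - c) → MeasurableSet F → F ⊆ Metric.ball 0 (2 * ρ) →
  (∀ x ∈ F, X x < V x) → ms T K a F V ≤ ms T K a (closure N) X

/-- dMNO. Monotonicity: the integrands are continuous and nonnegative on the unit ball. -/
def dMNO_stmt : Prop := ∀ {m n : ℕ} (T : Finset (Fin n)) (K : ℝ) (j : Fin n)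
  (a : Fin n → E m → ℝ) (Y : E m → ℝ) (Z Z' : Set (E m)), 0 ≤ K → (∀ i, SmC (a i)) →
  InCl T K a Y → Z ⊆ Z' → Z' ⊆ Metric.closedBall 0 1 → MeasurableSet Z → MeasurableSet Z' →
  ms T K a Z Y ≤ ms T K a Z' Y ∧ sm T K j a Z Y ≤ sm T K j a Z' Y ∧ 0 ≤ ms T K a Z Y ∧
  0 ≤ sm T K j a Z Y ∧ IntegrableOn (fun x => Ph (hs a (wt T K ∅ 0) x) (hess Y x)) Z' ∧
  IntegrableOn (fun x => dPh (hs a (wt T K ∅ 0) x) 2 (hess (a j) x) (hess Y x)) Z'

/-- dVAD. Adding a member of the class to the cap: `V = v + c (Y - 1)`.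
`hess V = hess v + c hess Y`, `hess v ∈ GG [A_T]`, `c hess Y ∈ GG [c K A_T]`, and `1 + c K ≤ K`;
`c^m Ph [K A_T] (hess Y) = Ph [c K A_T] (c hess Y) ≤ Ph [(1 + cK) A_T] (hess V) ≤ Ph [K A_T] (hess V)`
(aHOM, aSUP twice, the second time with `0 ∈ GG`). -/
def dVAD_stmt : Prop := ∀ {m n : ℕ} (T : Finset (Fin n)) (K c γ : ℝ) (a : Fin n → E m → ℝ)
  (v Y : E m → ℝ), 2 ≤ K → 0 < c → c ≤ 1 / 4 → 0 ≤ γ → (∀ i, SmC (a i)) → ContDiff ℝ ∞ v →
  (∀ x, hess v x - γ • (1 : Mat m) ∈ GG (hs a (wt T 1 ∅ 0) x)) → InCl T K a Y →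
  InCl T K a (fun x => v x + c * (Y x - 1)) ∧
  ∀ x, ‖x‖ ≤ 1 → c ^ m * Ph (hs a (wt T K ∅ 0) x) (hess Y x)
    ≤ Ph (hs a (wt T K ∅ 0) x) (hess (fun x => v x + c * (Y x - 1)) x)

/-- dPTT. `P_T` from the statements `Sm_{T,j}` and the cap.
Let `ρ_j` be the radii of `Sm_{T,j}`, `j ∈ S \ T`; choose `ρ ≤ ρ_j`, `2ρ ≤ min r 1`.  `Cap` for `ρ`:
`N, c, ρ', γ, η₀, R₀`.  dBND with `R = 1`: `L₀`; `c₂ = c / 4`.  The radius of `P_T` is `min ρ' ρ`.
Given `τ`, let `τ' = c₂^m τ / n` (`n + 1` in place of `n`).  `Sm_{T,j}` with `L = L₀ + 1`, `τ'`: `K₀ = max`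
of the `K₀ j` and `2`.  Given `K ≥ K₀`: `δ_j, η_j, R_j`; `δ = min (1, δ_j)`; `A = max (max K 2) (8 L₀/δ)`,
`δ' = c/(4A)`; `η = min (1, η₀, η_j)`, `R = max (1, R₀, R_j)`.  Let `a` be near, `Y` given, `v` the cap,
`ε ≤ c/8`, `X''` from dXA.  `V = v + c₂ (Y - 1)` (dVAD).  Off `N` (in the ball `2ρ`):
`V ≤ v ≤ G - c ≤ X - c ≤ X'' - c/2`.  On `F = {‖x‖ ≤ min ρ' ρ, w < δ'}`: `X'' ≤ X + c/8`, `X ≤ ∑_{S\T} a +
A w ≤ G + c/4` (dCOM, `Qf ≥ 0`), `V ≥ G + c - c₂ = G + 3c/4`; so `V > X''`.  dCMP, dXA and dMNO: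
`c₂^m ms F Y ≤ ms F V ≤ ms (closure N) X'' ≤ ε + 1/2 ∑_j sm {‖x‖ ≤ ρ, w < δ} X'' ≤ ε + (n/2) τ' K^|T|`
(`|X''| ≤ L₀ + 1` on the unit ball: dXQ).  Let `ε → 0`. -/
def dPTT_stmt : Prop := ∀ {m n : ℕ} (S T : Finset (Fin n)) (D : Submodule ℝ (E m))
  (h : Fin n → E m → ℝ) (r : ℝ), T ⊆ S → T.card < m → 0 < r → (∀ i, CV (h i)) →
  (∀ ρ : ℝ, 0 < ρ → Cap S T D h ρ) → (∀ j ∈ S \ T, Sm S T j D h r) → PT S T D h r

/-- dEND. The end of the induction: `T = ∅`.  As in dPTT with `V = v` (no `Y`), `K = K₀`.  Suppose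
`w (0) < δ'`.  Here `X` is convex (member of a class, `T = ∅`) and bounded by `L₀` on the ball `2ρ`, so
`X` and `G` are `2L₀/ρ`-Lipschitz on the ball `ρ` (dLIP): for `‖x‖ ≤ r'' = min (ρ', ρ, cρ/(16 L₀))`:
`X x ≤ X 0 + c/8 ≤ G 0 + c/4 + c/8`, `G x ≥ G 0 - c/8`; so `V x - X'' x ≥ c - c/8 - 3c/8 - ε > 0`.
`hess v ≥ γ` (`GG` with zero weights = positive semidefinite, aBSM), `Ph [0] = det`, so
`γ^m |B(r'')| ≤ ms (ball r'') V ≤ ε + 1/2 ∑_j sm ≤ ε + (n/2) τ'`, and `τ'`, `ε` can be chosen (before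
`K`, `δ`) so small that this is a contradiction (`r''` does not depend on them). -/
def dEND_stmt : Prop := ∀ {m n : ℕ} (S : Finset (Fin n)) (D : Submodule ℝ (E m))
  (h : Fin n → E m → ℝ) (r : ℝ), 0 < m → 0 < r → (∀ i, CV (h i)) →
  (∀ ρ : ℝ, 0 < ρ → Cap S ∅ D h ρ) → (∀ j ∈ S, Sm S ∅ j D h r) →
  ∃ δ η R : ℝ, 0 < δ ∧ 0 < η ∧ ∀ a : Fin n → E m → ℝ, Near h η R a → δ ≤ wf S D r a 0

/-- dHOP. `P_{T + j}` implies `Sm_{T,j}`.  Same radius.  Given `L, τ`: `L₁ = L + ` (bound of `|a j|` on the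
unit ball, dBND), `τ' = τ / (2 L₁)^m`.  For `K ≥ max K₀ 1`, `X` in the class `[K A_T]`, `|X| ≤ L`:
`∂²_{A j} Ph [K A_T] (hess X) ≤ K⁻¹ Ph [K A_{T+j}] (hess X + A j)` (aNXT), and
`Y = (X + a j + L₁)/(2 L₁)` is in the class `[K A_{T+j}]` with `0 ≤ Y ≤ 1` (aCLO: larger weights, adding
`A j`, scaling by `1/(2L₁) ≤ 1`), `Ph (hess X + A j) ≤ (2L₁)^m Ph (hess Y)` (aCLO, last item).  So
`sm ≤ K⁻¹ (2L₁)^m ms {..} Y ≤ K⁻¹ (2L₁)^m τ' K^(|T|+1) = τ K^|T|`. -/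
def dHOP_stmt : Prop := ∀ {m n : ℕ} (S T : Finset (Fin n)) (j : Fin n) (D : Submodule ℝ (E m))
  (h : Fin n → E m → ℝ) (r : ℝ), j ∉ T → (∀ i, CV (h i)) → PT S (insert j T) D h r →
  Sm S T j D h r

/-- dBAS. The base: `|T| + 1 = dim D`.  Radius `1/2`, `δ = 1`.  This is cLIM (block C) with `S := T`,
`ρ = 1/2`, turned from sequences to neighbourhoods: for `L, τ` take `K₀` of cLIM; if for some `K ≥ K₀` there
were no `η, R`, there would be families `a^l` with `Near h (1/(l+1)) l a^l` and `X^l` in the class, bounded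
by `L`, with `sm T K j a^l {‖x‖ ≤ 1/2, w < 1} X^l > τ K^|T|`; `a^l → h` pointwise, and `sm` is at most the integral
over `closedBall 0 (1/2)` (dMNO): contradiction to cLIM. (`h i (pj D x) = h i x` and `pj D = D.starProjection`.) -/
def dBAS_stmt : Prop := ∀ {m n : ℕ} (S T : Finset (Fin n)) (j : Fin n) (D : Submodule ℝ (E m))
  (h : Fin n → E m → ℝ) (r : ℝ), j ∉ T → T.card + 1 = Module.finrank ℝ D → (∀ i, CV (h i)) →
  (∀ i x, h i (pj D x) = h i x) → Sm S T j D h r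

/-- dIND. Potentials exist: strong induction on `d`.  `d = 0`: dZER.  `d ≥ 1` (so `m ≥ 1`): `Cap S T D h ρ`
holds for all `T ⊆ S` with `|T| < d` (dCAP).  By induction on `s`: for all `T ⊆ S` with `|T| + 1 + s = d`,
all `j ∈ S \ T`: `Sm S T j`.  `s = 0`: dBAS.  `s + 1`: dHOP from `PT S (insert j T)`, which is
dPTT with the case `s` for `insert j T`.  Then dEND (`T = ∅`, `s = d - 1`) and dPOT. -/
def dIND_stmt : Prop := ∀ m n d : ℕ, EP m n d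

/-- dCOR. `CORE`: the mixed Monge-Ampere measure does not vanish near a point of the Hall type.
Suppose the Hall condition `finrank W + I.card ≤ m` for all `I`, `W` and `B φ F = 0` for all test
functions supported in the ball `r₀`.  `EP m m m` with `S = univ`, `D = ⊤` (`pj = id`, `Qf = 0`,
`Tube ⊤ r = {‖x‖ < r}`), `r = r₀/2`: `δ, η, R`, and `ψ` for `a` near `F`.  `v = ψ + γ (‖x‖² - 4r²)`,
`v < 0` for `r ≤ ‖x‖ < 2r`, `v > 0` on a ball `B'` around `0` independent of `a`; `hess v = hess ψ + 2γ`, so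
`Ph [A] (hess v) ≥ (2γ)^m` (aSUP).  cCMP for `v` and `0` on the ball `2r`:
`(2γ)^m |B'| ≤ ∫_{closedBall r} Ph [A] 0 = m! ∫_{closedBall r} mD (A) ≤ m! B φ a` (aALL, `B_smooth`) for a
test function `φ` which is `1` on the ball `3r/2` and supported in the ball `r₀`.  Take `a = a^k → F`
pointwise (`exists_smooth`; near by local uniformity): `B φ a^k → B φ F = 0` (`tendsto_B`), contradiction. -/
def dCOR_stmt : Prop := ∀ {m : ℕ} (F : Fin m → E m → ℝ), 1 ≤ m → (∀ j, CV (F j)) → ∀ r : ℝ, 0 < r →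
  (∀ φ, Test φ → tsupport φ ⊆ Metric.ball 0 r → B φ F = 0) →
  ∃ (I : Finset (Fin m)) (W : Submodule ℝ (E m)), (∀ v ∈ W, ∀ i ∈ I, FlatAt (F i) 0 v) ∧
    m + 1 ≤ Module.finrank ℝ W + I.card

/-- dNCV. Pointwise convergence of smooth convex functions implies `Near` eventually (locally uniform
convergence: from `loc_lip` / `tendsto_diag` of the SC library and compactness). -/
def dNCV_stmt : Prop := ∀ {m n : ℕ} (h : Fin n → E m → ℝ) (a : ℕ → Fin n → E m → ℝ),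
  (∀ k i, SmC (a k i)) → (∀ i x, Tendsto (fun k => a k i x) atTop (𝓝 (h i x))) →
  ∀ η R : ℝ, 0 < η → ∀ᶠ k in atTop, Near h η R (a k)

end Pool.Agent.helper40.SN
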