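import Pool.Agent.helper11.SC.TF
import Pool.Agent.helper26.SC.LU
import Pool.Agent.helper35.SC.LA1
import Pool.Agent.helper35.SC.LA2
import Pool.Agent.helper36.SC.BP1
import Pool.Agent.helper41.SC.AL1
import Pool.Agent.helper41.SC.AL2
import Pool.Agent.helper41.SC.AL3
import Pool.Agent.helper46.SC.BS
import Pool.Agent.helper53.SC.AL4
import Pool.Agent.helper53.SC.HS1
import Pool.Agent.helper53.SC.HS2
import Pool.Agent.helper58.SC.MO

/-! The statements of the SC library used by project sn, without hypotheses. -/

open scoped Pointwise ContDiff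
open MeasureTheory Set Filter Topology Pool.Agent.helper83.SC

namespace Pool.Agent.helper40.SN.W

theorem w_loc_lip : loc_lip_stmt := loc_lip_of loc_bdd_of

theorem w_tendsto_diag : tendsto_diag_stmt := tendsto_diag_of w_loc_lip

theorem w_sel_integrable : sel_integrable_stmt :=
  sel_integrable_of ae_argmin_unique_of alexandrov_smooth_of exists_smooth_of w_loc_lip
    w_tendsto_diag

theorem w_tendsto_A : tendsto_A_stmt :=
  tendsto_A_of ae_argmin_unique_of w_sel_integrable w_loc_lip w_tendsto_diag

theorem w_A_smooth : A_smooth_stmt :=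
  A_smooth_of alexandrov_smooth_of w_tendsto_A hess_add_of hess_normSq_of continuous_hess_of

theorem w_B_smooth : B_smooth_stmt :=
  B_smooth_of mD_polar_of hess_add_of hess_sum_of continuous_hess_of w_A_smooth

theorem w_tendsto_B : tendsto_B_stmt := tendsto_B_of w_tendsto_A

theorem w_B_le_A : B_le_A_stmt :=
  B_le_A_of mD_le_det_of hess_psd_of hess_sum_of continuous_hess_of exists_smooth_of w_tendsto_A
    w_A_smooth w_B_smooth w_tendsto_B

end Pool.Agent.helper40.SN.W
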