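import Pool.Agent.helper40.SN.SpecD

open scoped Pointwise ContDiff
open MeasureTheory Set Filter Topology Pool.Agent.helper83.SC Pool.Agent.helper69.SN

namespace Pool.Agent.helper40.SN

theorem dGEO_smc {m : ℕ} (D : Submodule ℝ (E m)) : SmC (Qf D) := by
  constructor
  · exact (contDiff_id.sub (pj D).contDiff).norm_sq ℝ
  · have h1 : ConvexOn ℝ univ (fun x : E m => ‖x - pj D x‖) := by
      refine ⟨convex_univ, fun x _ y _ a b ha hb hab => ?_⟩
      have h2 : a • x + b • y - pj D (a • x + b • y) = a • (x - pj D x) + b • (y - pj D y) := by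
        rw [map_add, map_smul, map_smul, smul_sub, smul_sub]
        abel
      show ‖a • x + b • y - pj D (a • x + b • y)‖ ≤ a • ‖x - pj D x‖ + b • ‖y - pj D y‖
      rw [h2]
      refine (norm_add_le _ _).trans ?_
      rw [norm_smul, norm_smul, Real.norm_of_nonneg ha, Real.norm_of_nonneg hb, smul_eq_mul,
        smul_eq_mul]
    exact h1.pow (fun x _ => norm_nonneg _) 2

theorem dGEO_le {m : ℕ} (D : Submodule ℝ (E m)) (x : E m) :
    ‖x‖ ^ 2 = ‖pj D x‖ ^ 2 + ‖x - pj D x‖ ^ 2 := by
  have h := D.norm_sq_eq_add_norm_sq_starProjection x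
  have h2 : Dᗮ.starProjection x = x - pj D x := by
    rw [Submodule.starProjection_orthogonal]
    simp [pj]
  rw [h2] at h
  exact h

theorem dGEO (hP : hess_psd_stmt) : dGEO_stmt := by
  intro m D
  have h0 := dGEO_smc D
  have hn : ∀ x, ‖pj D x‖ ≤ ‖x‖ := by
    intro x
    have h1 := dGEO_le D x
    have h2 := sq_nonneg ‖x - pj D x‖
    exact abs_le_of_sq_le_sq' (by linarith) (norm_nonneg _) |>.2
  have hn2 : ∀ x, ‖x - pj D x‖ ≤ ‖x‖ := by
    intro x
    have h1 := dGEO_le D x
    have h2 := sq_nonneg ‖pj D x‖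
    exact abs_le_of_sq_le_sq' (by linarith) (norm_nonneg _) |>.2
  have hmem : ∀ x, pj D x ∈ D := fun x => Submodule.starProjection_apply_mem D x
  have hself : ∀ x ∈ D, pj D x = x := fun x hx => Submodule.starProjection_eq_self_iff.2 hx
  have hzero : ∀ x, Qf D x = 0 → x ∈ D := by
    intro x hx
    unfold Qf at hx
    have h1 : x - pj D x = 0 := by
      rw [← norm_eq_zero]
      exact pow_eq_zero_iff (two_ne_zero) |>.1 hx
    rw [sub_eq_zero.1 h1]
    exact hmem x
  refine ⟨h0, fun x => hP h0.1 h0.2 x, fun x => sq_nonneg _, ?_, ?_, ?_, ?_, ?_, ?_, hn, hself,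
    hmem, hzero⟩
  · intro x hx
    unfold Qf
    rw [hself x hx]
    simp
  · intro x
    have h1 := dGEO_le D x
    have h2 := sq_nonneg ‖pj D x‖
    unfold Qf
    linarith
  · intro r
    exact (isOpen_lt (pj D).continuous.norm continuous_const).inter
      (isOpen_lt (continuous_id.sub (pj D).continuous).norm continuous_const)
  · intro r x hx
    have h1 : ‖x‖ ≤ ‖pj D x‖ + ‖x - pj D x‖ := by
      have := norm_add_le (pj D x) (x - pj D x)
      rwa [add_sub_cancel] at this
    have h2 := hx.1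
    have h3 := hx.2
    linarith
  · intro r ρ h1 h2 x hx
    rw [mem_ball_zero_iff] at hx
    exact ⟨(hn x).trans_lt (hx.trans_le h1), (hn2 x).trans_lt (hx.trans_le h2)⟩
  · intro v hv
    obtain ⟨ε, hε, h⟩ := hv
    apply hzero
    have h1 : Qf D (0 : E m) = 0 := by simp [Qf]
    have h2 : Qf D ((0 : E m) + ε • v) = ε ^ 2 * Qf D v := by
      unfold Qf
      rw [zero_add, map_smul, ← smul_sub, norm_smul, mul_pow, Real.norm_eq_abs, sq_abs]
    have h3 : Qf D ((0 : E m) - ε • v) = ε ^ 2 * Qf D v := by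
      unfold Qf
      rw [zero_sub, map_neg, map_smul, ← neg_sub', ← smul_sub, norm_neg, norm_smul, mul_pow,
        Real.norm_eq_abs, sq_abs]
    rw [h1, h2, h3] at h
    have h4 : ε ^ 2 * Qf D v = 0 := by linarith
    rcases mul_eq_zero.1 h4 with h5 | h5
    · exact absurd h5 (by positivity)
    · exact h5

end Pool.Agent.helper40.SN
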