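import Pool.Agent.helper40.SN.SpecD

open scoped Pointwise ContDiff
open MeasureTheory Set Filter Topology Pool.Agent.helper83.SC Pool.Agent.helper69.SN

namespace Pool.Agent.helper40.SN

/-- Assembly of the induction on the dimension. -/
theorem dIND (hZER : dZER_stmt) (hCAP : dCAP_stmt) (hPTT : dPTT_stmt) (hHOP : dHOP_stmt)
    (hBAS : dBAS_stmt) (hEND : dEND_stmt) (hPOT : dPOT_stmt) : dIND_stmt := by
  intro m n d
  induction d using Nat.strong_induction_on with
  | _ d ih =>
    rcases Nat.eq_zero_or_pos d with h0 | hd
    · rw [h0]
      exact hZER m n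
    intro S D h hD hcv hpj hHall r hr
    have hdm : d ≤ m := by
      rw [← hD]
      have := Submodule.finrank_le D
      simpa using this
    have hcap : ∀ T : Finset (Fin n), T ⊆ S → T.card < d → ∀ ρ : ℝ, 0 < ρ → Cap S T D h ρ :=
      fun T hT hTd => hCAP S T D h hT (fun d' hd' => ih d' (lt_of_le_of_lt hd' hTd)) hcv hHall
    have key : ∀ s : ℕ, ∀ T : Finset (Fin n), T ⊆ S → T.card + 1 + s = d →
        ∀ j ∈ S \ T, Sm S T j D h r := by
      intro s
      induction s with
      | zero =>
        intro T hT hc j hj
        exact hBAS S T j D h r (Finset.mem_sdiff.1 hj).2 (by omega) hcv hpj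
      | succ s ihs =>
        intro T hT hc j hj
        have hj' := Finset.mem_sdiff.1 hj
        have hjT : insert j T ⊆ S := Finset.insert_subset hj'.1 hT
        have hcard : (insert j T).card = T.card + 1 := Finset.card_insert_of_notMem hj'.2
        refine hHOP S T j D h r hj'.2 hcv ?_
        exact hPTT S (insert j T) D h r hjT (by omega) hr hcv (hcap _ hjT (by omega))
          (ihs _ hjT (by omega))
    have hlow := hEND S D h r (by omega) hr hcv (hcap ∅ (by simp) (by simpa using hd))
      (fun j hj => key (d - 1) ∅ (by simp) (by simp; omega) j (by simpa using hj))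
    exact hPOT S D h r (by omega) hr hcv hlow

end Pool.Agent.helper40.SN
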