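import Pool.Agent.helper40.SN.SpecD
import Pool.Agent.helper81.SN.CUT

open scoped Pointwise ContDiff
open MeasureTheory Set Filter Topology Pool.Agent.helper83.SC Pool.Agent.helper69.SN

namespace Pool.Agent.helper40.SN

theorem dJEN (hGEO : dGEO_stmt) : dJEN_stmt := by
  intro m g hg D' hflat Z hZ C δ hC hδ
  obtain ⟨hsm, -, -, hQD, -⟩ := hGEO D'
  obtain ⟨R, hR⟩ := hZ.isBounded.subset_closedBall (0 : E m)
  have hq : Continuous (fun x => C * Qf D' x) := continuous_const.mul hsm.1.continuous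
  have h0 : ∀ x, FlatAt g 0 x → C * Qf D' x ≤ 0 := by
    intro x hx
    rw [hQD x (hflat x hx), mul_zero]
  have hR' : 0 < max R 1 := lt_max_of_lt_right one_pos
  obtain ⟨l₀, hl₀, H⟩ := Pool.Agent.helper81.SN.cut hg hq h0 hR' (b := δ / 4) (by positivity)
  have hl : 0 < min l₀ 1 := lt_min hl₀ one_pos
  obtain ⟨a, c, h1, h2⟩ := H (min l₀ 1) hl (min_le_left _ _)
  refine ⟨min l₀ 1, min l₀ 1 * δ / 4, c - min l₀ 1 * δ / 4, a, hl, min_le_right _ _,
    by positivity, ?_, ?_⟩
  · intro x hx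
    have h3 := hR hx
    rw [mem_closedBall_zero_iff] at h3
    have h4 := h2 x (h3.trans (le_max_left _ _))
    linarith
  · have h5 : 0 < min l₀ 1 * δ := by positivity
    linarith

end Pool.Agent.helper40.SN
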